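import Pool.Agent.helper48.SLn.Final

/-!
# Project ug (MP_a2a22c_al): unipotent subgroups of thin subgroups of SL(n, Z). Definitions, API.
-/

set_option autoImplicit false

namespace Pool.Agent.UG

open Matrix Pool.Agent.H48SL

/-- `SL(n, ℤ)` -/
abbrev SLZ (n : ℕ) : Type := Matrix.SpecialLinearGroup (Fin n) ℤ

/-- rational matrices -/
abbrev MQ (n : ℕ) : Type := Matrix (Fin n) (Fin n) ℚ

/-- the rational matrix of `g` -/
def qg {n : ℕ} (g : SLZ n) : MQ n := (Int.castRingHom ℚ).mapMatrix (g : Matrix (Fin n) (Fin n) ℤ)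

theorem qg_apply {n : ℕ} (g : SLZ n) (i j : Fin n) :
    qg g i j = (((g : Matrix (Fin n) (Fin n) ℤ) i j : ℤ) : ℚ) := rfl

theorem qg_mul {n : ℕ} (g h : SLZ n) : qg (g * h) = qg g * qg h := by
  unfold qg
  rw [Matrix.SpecialLinearGroup.coe_mul, map_mul]

theorem qg_one {n : ℕ} : qg (1 : SLZ n) = 1 := by
  unfold qg
  rw [Matrix.SpecialLinearGroup.coe_one, map_one]

/-- `qg` as a homomorphism -/
def qgHom (n : ℕ) : SLZ n →* MQ n where
  toFun := qg
  map_one' := qg_one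
  map_mul' := qg_mul

theorem qg_pow {n : ℕ} (g : SLZ n) (k : ℕ) : qg (g ^ k) = qg g ^ k := map_pow (qgHom n) g k

theorem qg_inj {n : ℕ} {g h : SLZ n} (H : qg g = qg h) : g = h := by
  apply SL_ext
  ext i j
  have := congrFun (congrFun H i) j
  rw [qg_apply, qg_apply] at this
  exact_mod_cast this

theorem qg_mul_inv {n : ℕ} (g : SLZ n) : qg g * qg g⁻¹ = 1 := by
  rw [← qg_mul, mul_inv_cancel, qg_one]

theorem qg_inv_mul {n : ℕ} (g : SLZ n) : qg g⁻¹ * qg g = 1 := by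
  rw [← qg_mul, inv_mul_cancel, qg_one]

theorem qg_mulVec_castV {n : ℕ} (g : SLZ n) (w : Fin n → ℤ) :
    qg g *ᵥ castV w = castV ((g : Matrix (Fin n) (Fin n) ℤ) *ᵥ w) := by
  ext i
  simp [castV, mulVec, dotProduct, qg_apply]

theorem castV_vecMul_qg {n : ℕ} (g : SLZ n) (w : Fin n → ℤ) :
    castV w ᵥ* qg g = castV (w ᵥ* (g : Matrix (Fin n) (Fin n) ℤ)) := by
  ext i
  simp [castV, vecMul, dotProduct, qg_apply]

theorem castV_inj {n : ℕ} {v w : Fin n → ℤ} (h : castV v = castV w) : v = w := by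
  ext i
  have := congrFun h i
  simp only [castV] at this
  exact_mod_cast this

theorem castV_zero {n : ℕ} : castV (0 : Fin n → ℤ) = 0 := by
  ext i; simp [castV]

theorem castV_single {n : ℕ} (i : Fin n) : castV (Pi.single i 1 : Fin n → ℤ) = Pi.single i 1 := by
  ext j
  by_cases h : j = i
  · subst h; simp [castV]
  · simp [castV, h]

theorem qg_tv {n : ℕ} {e φ : Fin n → ℤ} (h : φ ⬝ᵥ e = 0) :
    qg (tv e φ) = 1 + vecMulVec (castV e) (castV φ) := by
  ext i j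
  rw [qg_apply, tv_coe h, Matrix.add_apply, Matrix.add_apply, vecMulVec_apply, vecMulVec_apply]
  by_cases hij : i = j
  · subst hij; simp [castV]
  · simp [castV, hij]

/-- the first basis vector -/
def e0 (n : ℕ) : Fin (n + 1) → ℚ := Pi.single 0 1

theorem mulVec_e0 {n : ℕ} (X : MQ (n + 1)) (i : Fin (n + 1)) : (X *ᵥ e0 n) i = X i 0 := by
  unfold e0
  rw [mulVec_single_one]
  rfl

theorem kill_iff {n : ℕ} (X : MQ (n + 1)) : X *ᵥ e0 n = 0 ↔ ∀ i, X i 0 = 0 := by
  constructor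
  · intro h i
    have h1 := congrFun h i
    have h2 := mulVec_e0 X i
    exact h2.symm.trans h1
  · intro h
    ext i
    exact (mulVec_e0 X i).trans (h i)

/-- the block of `X` on the quotient by the first basis vector -/
def dn {n : ℕ} (X : MQ (n + 1)) : MQ n := X.submatrix Fin.succ Fin.succ

theorem dn_apply {n : ℕ} (X : MQ (n + 1)) (i j : Fin n) : dn X i j = X i.succ j.succ := rfl

/-- `dn` as a linear map -/
def dnL (n : ℕ) : MQ (n + 1) →ₗ[ℚ] MQ n where
  toFun := dn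
  map_add' _ _ := rfl
  map_smul' _ _ := rfl

theorem dnL_apply {n : ℕ} (X : MQ (n + 1)) : dnL n X = dn X := rfl

/-- the block is multiplicative if the right factor maps the first basis vector to a multiple -/
theorem dn_mul {n : ℕ} (X Y : MQ (n + 1)) (h : ∀ i : Fin n, X i.succ 0 = 0) :
    dn (X * Y) = dn X * dn Y := by
  ext i j
  rw [dn_apply, Matrix.mul_apply, Fin.sum_univ_succ, h, zero_mul, zero_add, Matrix.mul_apply]
  rfl

theorem dn_one {n : ℕ} : dn (1 : MQ (n + 1)) = 1 := by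
  ext i j
  by_cases hij : i = j
  · subst hij; simp [dn_apply]
  · simp [dn_apply, hij]

/-- `h` fixes the first basis vector -/
def fx {n : ℕ} (h : SLZ (n + 1)) : Prop := qg h *ᵥ e0 n = e0 n

theorem fx_iff {n : ℕ} (h : SLZ (n + 1)) :
    fx h ↔ ∀ i, (h : Matrix (Fin (n + 1)) (Fin (n + 1)) ℤ) i 0 = if i = 0 then 1 else 0 := by
  unfold fx
  constructor
  · intro H i
    have h1 := congrFun H i
    rw [mulVec_e0, qg_apply] at h1
    unfold e0 at h1
    rw [Pi.single_apply] at h1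
    split_ifs with h2
    · rw [if_pos h2] at h1; exact_mod_cast h1
    · rw [if_neg h2] at h1; exact_mod_cast h1
  · intro H
    ext i
    rw [mulVec_e0, qg_apply, H i]
    unfold e0
    rw [Pi.single_apply]
    split_ifs <;> simp

theorem fx_succ {n : ℕ} {h : SLZ (n + 1)} (hf : fx h) (i : Fin n) : qg h i.succ 0 = 0 := by
  rw [qg_apply, (fx_iff h).1 hf, if_neg (Fin.succ_ne_zero i), Int.cast_zero]

theorem fx_zero {n : ℕ} {h : SLZ (n + 1)} (hf : fx h) : qg h 0 0 = 1 := by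
  rw [qg_apply, (fx_iff h).1 hf, if_pos rfl, Int.cast_one]

theorem fx_one {n : ℕ} : fx (1 : SLZ (n + 1)) := by
  unfold fx
  rw [qg_one, one_mulVec]

theorem fx_mul {n : ℕ} {g h : SLZ (n + 1)} (hg : fx g) (hh : fx h) : fx (g * h) := by
  unfold fx at *
  rw [qg_mul, ← mulVec_mulVec, hh, hg]

theorem fx_inv {n : ℕ} {g : SLZ (n + 1)} (hg : fx g) : fx g⁻¹ := by
  unfold fx at *
  have h1 := congrArg (fun w => qg g⁻¹ *ᵥ w) hg
  simp only [mulVec_mulVec, qg_inv_mul, one_mulVec] at h1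
  exact h1.symm

/-- the stabiliser of the first basis vector -/
def St (n : ℕ) : Subgroup (SLZ (n + 1)) where
  carrier := {h | fx h}
  one_mem' := fx_one
  mul_mem' := fx_mul
  inv_mem' := fx_inv

theorem mem_St {n : ℕ} {h : SLZ (n + 1)} : h ∈ St n ↔ fx h := Iff.rfl

/-- the block of an element of the stabiliser -/
def bl {n : ℕ} (h : SLZ (n + 1)) (hf : fx h) : SLZ n :=
  ⟨(h : Matrix (Fin (n + 1)) (Fin (n + 1)) ℤ).submatrix Fin.succ Fin.succ, by
    have h1 : (h : Matrix (Fin (n + 1)) (Fin (n + 1)) ℤ).det = 1 := h.2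
    rw [Matrix.det_succ_column_zero, Fin.sum_univ_succ] at h1
    simp only [(fx_iff h).1 hf, if_true, Fin.succ_ne_zero, if_false, mul_zero, zero_mul,
      Finset.sum_const_zero, add_zero, Fin.val_zero, pow_zero, one_mul, Fin.succAbove_zero] at h1
    exact h1⟩

theorem qg_bl {n : ℕ} (h : SLZ (n + 1)) (hf : fx h) : qg (bl h hf) = dn (qg h) := rfl

/-- the block homomorphism -/
def blHom (n : ℕ) : St n →* SLZ n where
  toFun h := bl h.1 h.2
  map_one' := by
    apply qg_inj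
    rw [qg_bl]
    show dn (qg (1 : SLZ (n + 1))) = _
    rw [qg_one, qg_one, dn_one]
  map_mul' g h := by
    apply qg_inj
    rw [qg_bl, qg_mul, qg_bl, qg_bl]
    show dn (qg (g.1 * h.1)) = _
    rw [qg_mul, dn_mul _ _ (fx_succ g.2)]

/-- the blocks of the elements of `H` which fix the first basis vector -/
def Hb {n : ℕ} (H : Subgroup (SLZ (n + 1))) : Subgroup (SLZ n) :=
  (H.subgroupOf (St n)).map (blHom n)

theorem mem_Hb {n : ℕ} {H : Subgroup (SLZ (n + 1))} {s : SLZ n} :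
    s ∈ Hb H ↔ ∃ h ∈ H, fx h ∧ dn (qg h) = qg s := by
  unfold Hb
  rw [Subgroup.mem_map]
  constructor
  · rintro ⟨h, hh, rfl⟩
    exact ⟨h.1, hh, h.2, rfl⟩
  · rintro ⟨h, hh, hf, hs⟩
    exact ⟨⟨h, hf⟩, hh, qg_inj hs⟩

/-- every element of `SL(n, ℤ)` is a block -/
theorem exists_up {n : ℕ} (s : SLZ n) : ∃ t : SLZ (n + 1), fx t ∧ dn (qg t) = qg s := by
  set M : Matrix (Fin (n + 1)) (Fin (n + 1)) ℤ :=
    Matrix.of (fun i j => Fin.cases (Fin.cases 1 (fun _ => 0) j)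
      (fun i' => Fin.cases 0 (fun j' => (s : Matrix (Fin n) (Fin n) ℤ) i' j') j) i) with hM
  have h00 : M 0 0 = 1 := rfl
  have hi0 : ∀ i : Fin n, M i.succ 0 = 0 := fun i => rfl
  have hsub : M.submatrix Fin.succ Fin.succ = (s : Matrix (Fin n) (Fin n) ℤ) := by
    ext i j
    rfl
  have hdet : M.det = 1 := by
    rw [Matrix.det_succ_column_zero, Fin.sum_univ_succ]
    simp only [hi0, h00, mul_zero, zero_mul, Finset.sum_const_zero, add_zero, Fin.val_zero,
      pow_zero, one_mul, Fin.succAbove_zero, hsub]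
    exact s.2
  refine ⟨⟨M, hdet⟩, ?_, ?_⟩
  · rw [fx_iff]
    intro i
    refine Fin.cases ?_ (fun i => ?_) i
    · rw [if_pos rfl]; exact h00
    · rw [if_neg (Fin.succ_ne_zero i)]; exact hi0 i
  · ext i j
    rw [dn_apply, qg_apply, qg_apply]
    rfl

/-! ### Polynomial functions -/

theorem ip_evalP {n : ℕ} {σ : Type} (f : σ → SLZ n → ℤ) (hf : ∀ i, IsPoly (f i))
    (P : MvPolynomial σ ℤ) : IsPoly (fun g => MvPolynomial.eval (fun i => f i g) P) := by
  induction P using MvPolynomial.induction_on with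
  | C c => simp only [MvPolynomial.eval_C]; exact H48SL.IsPoly.const c
  | add p q hp hq => simp only [map_add]; exact hp.add hq
  | mul_X p i hp => simp only [map_mul, MvPolynomial.eval_X]; exact hp.mul (hf i)

theorem ip_mul_right {n : ℕ} {F : SLZ n → ℤ} (hF : IsPoly F) (a : SLZ n) :
    IsPoly (fun g => F (g * a)) := by
  obtain ⟨P, hP⟩ := hF
  simp only [hP]
  apply ip_evalP (fun (x : Fin n × Fin n) (g : SLZ n) =>
    ((g * a : SLZ n) : Matrix (Fin n) (Fin n) ℤ) x.1 x.2)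
  intro x
  simp only [Matrix.SpecialLinearGroup.coe_mul, Matrix.mul_apply]
  exact IsPoly.sum _ _ fun j _ => (H48SL.IsPoly.entry _ _).mul (H48SL.IsPoly.const _)

theorem ip_mul_left {n : ℕ} {F : SLZ n → ℤ} (hF : IsPoly F) (a : SLZ n) :
    IsPoly (fun g => F (a * g)) := by
  obtain ⟨P, hP⟩ := hF
  simp only [hP]
  apply ip_evalP (fun (x : Fin n × Fin n) (g : SLZ n) =>
    ((a * g : SLZ n) : Matrix (Fin n) (Fin n) ℤ) x.1 x.2)
  intro x
  simp only [Matrix.SpecialLinearGroup.coe_mul, Matrix.mul_apply]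
  exact IsPoly.sum _ _ fun j _ => (H48SL.IsPoly.const _).mul (H48SL.IsPoly.entry _ _)

theorem ip_inv {n : ℕ} {F : SLZ n → ℤ} (hF : IsPoly F) : IsPoly (fun g => F g⁻¹) := by
  obtain ⟨P, hP⟩ := hF
  simp only [hP]
  apply ip_evalP (fun (x : Fin n × Fin n) (g : SLZ n) =>
    ((g⁻¹ : SLZ n) : Matrix (Fin n) (Fin n) ℤ) x.1 x.2)
  intro x
  exact IsPoly.entry_inv _ _

/-- the Zariski closure of `H` in `SL(n, ℤ)` -/
def Zc {n : ℕ} (H : Subgroup (SLZ n)) : Subgroup (SLZ n) where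
  carrier := {g | ∀ F : SLZ n → ℤ, IsPoly F → (∀ h ∈ H, F h = 0) → F g = 0}
  one_mem' := fun F _ h => h 1 H.one_mem
  mul_mem' := by
    intro a b ha hb F hF h
    have h1 : ∀ x ∈ H, F (a * x) = 0 := fun x hx =>
      ha (fun g => F (g * x)) (ip_mul_right hF x) (fun y hy => h _ (H.mul_mem hy hx))
    exact hb (fun g => F (a * g)) (ip_mul_left hF a) h1
  inv_mem' := by
    intro a ha F hF h
    exact ha (fun g => F g⁻¹) (ip_inv hF) (fun y hy => h _ (H.inv_mem hy))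

theorem mem_Zc {n : ℕ} {H : Subgroup (SLZ n)} {g : SLZ n} :
    g ∈ Zc H ↔ ∀ F : SLZ n → ℤ, IsPoly F → (∀ h ∈ H, F h = 0) → F g = 0 := Iff.rfl

theorem le_Zc {n : ℕ} (H : Subgroup (SLZ n)) : H ≤ Zc H := fun h hh _ _ H' => H' h hh

theorem zdense_of_Zc {n : ℕ} {H : Subgroup (SLZ n)} (h : Zc H = ⊤) : ZDense H := by
  intro P hP g
  have hg : g ∈ Zc H := by rw [h]; exact Subgroup.mem_top g
  exact hg (fun g => MvPolynomial.eval
    (fun x : Fin n × Fin n => (g : Matrix (Fin n) (Fin n) ℤ) x.1 x.2) P) ⟨P, fun _ => rfl⟩ hP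

/-- a Zariski dense subgroup of the closure of `H` makes `H` Zariski dense -/
theorem zdense_of_le_Zc {n : ℕ} {H M : Subgroup (SLZ n)} (hM : ZDense M) (hle : M ≤ Zc H) :
    ZDense H := by
  intro P hP g
  apply hM P
  intro m hm
  exact hle hm (fun g => MvPolynomial.eval
    (fun x : Fin n × Fin n => (g : Matrix (Fin n) (Fin n) ℤ) x.1 x.2) P) ⟨P, fun _ => rfl⟩ hP

/-- rational polynomial functions on `SL(n, ℤ)` -/
def IsPolyQ {n : ℕ} (F : SLZ n → ℚ) : Prop :=
  ∃ P : MvPolynomial (Fin n × Fin n) ℚ, ∀ g : SLZ n,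
    F g = MvPolynomial.eval (fun x : Fin n × Fin n => qg g x.1 x.2) P

theorem IsPolyQ.const {n : ℕ} (c : ℚ) : IsPolyQ (fun _ : SLZ n => c) :=
  ⟨MvPolynomial.C c, fun g => by simp⟩

theorem IsPolyQ.add {n : ℕ} {F G : SLZ n → ℚ} (hF : IsPolyQ F) (hG : IsPolyQ G) :
    IsPolyQ (fun g => F g + G g) := by
  obtain ⟨P, hP⟩ := hF
  obtain ⟨Q, hQ⟩ := hG
  exact ⟨P + Q, fun g => by rw [map_add, ← hP, ← hQ]⟩

theorem IsPolyQ.mul {n : ℕ} {F G : SLZ n → ℚ} (hF : IsPolyQ F) (hG : IsPolyQ G) :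
    IsPolyQ (fun g => F g * G g) := by
  obtain ⟨P, hP⟩ := hF
  obtain ⟨Q, hQ⟩ := hG
  exact ⟨P * Q, fun g => by rw [map_mul, ← hP, ← hQ]⟩

theorem IsPolyQ.sub {n : ℕ} {F G : SLZ n → ℚ} (hF : IsPolyQ F) (hG : IsPolyQ G) :
    IsPolyQ (fun g => F g - G g) := by
  obtain ⟨P, hP⟩ := hF
  obtain ⟨Q, hQ⟩ := hG
  exact ⟨P - Q, fun g => by rw [map_sub, ← hP, ← hQ]⟩

theorem IsPolyQ.sum {n : ℕ} {κ : Type} (s : Finset κ) (F : κ → SLZ n → ℚ)
    (hF : ∀ k ∈ s, IsPolyQ (F k)) : IsPolyQ (fun g => ∑ k ∈ s, F k g) := by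
  classical
  induction s using Finset.induction_on with
  | empty => simp only [Finset.sum_empty]; exact IsPolyQ.const 0
  | insert a s ha ih =>
    simp only [Finset.sum_insert ha]
    exact (hF a (Finset.mem_insert_self a s)).add
      (ih fun k hk => hF k (Finset.mem_insert_of_mem hk))

theorem IsPolyQ.entry {n : ℕ} (i j : Fin n) : IsPolyQ (fun g : SLZ n => qg g i j) :=
  ⟨MvPolynomial.X (i, j), fun g => by simp⟩

theorem IsPolyQ.cast {n : ℕ} {F : SLZ n → ℤ} (hF : IsPoly F) :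
    IsPolyQ (fun g => ((F g : ℤ) : ℚ)) := by
  obtain ⟨P, hP⟩ := hF
  refine ⟨MvPolynomial.map (Int.castRingHom ℚ) P, fun g => ?_⟩
  show ((F g : ℤ) : ℚ) = _
  rw [hP, MvPolynomial.eval_map]
  have h1 := MvPolynomial.eval₂_comp (Int.castRingHom ℚ)
    (fun x : Fin n × Fin n => (g : Matrix (Fin n) (Fin n) ℤ) x.1 x.2) P
  exact h1

theorem IsPolyQ.entry_inv {n : ℕ} (i j : Fin n) : IsPolyQ (fun g : SLZ n => qg g⁻¹ i j) :=
  IsPolyQ.cast (IsPoly.entry_inv i j)

theorem IsPolyQ.evalP {n : ℕ} {σ : Type} (f : σ → SLZ n → ℚ) (hf : ∀ i, IsPolyQ (f i))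
    (P : MvPolynomial σ ℚ) : IsPolyQ (fun g => MvPolynomial.eval (fun i => f i g) P) := by
  induction P using MvPolynomial.induction_on with
  | C c => simp only [MvPolynomial.eval_C]; exact IsPolyQ.const c
  | add p q hp hq => simp only [map_add]; exact hp.add hq
  | mul_X p i hp => simp only [map_mul, MvPolynomial.eval_X]; exact hp.mul (hf i)

theorem clear_poly {σ : Type} (P : MvPolynomial σ ℚ) : ∃ (N : ℤ) (P' : MvPolynomial σ ℤ), N ≠ 0 ∧
    ∀ x : σ → ℤ, ((MvPolynomial.eval x P' : ℤ) : ℚ)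
      = N * MvPolynomial.eval (fun i => ((x i : ℤ) : ℚ)) P := by
  induction P using MvPolynomial.induction_on with
  | C c =>
    refine ⟨c.den, MvPolynomial.C c.num, by exact_mod_cast c.den_ne_zero, fun x => ?_⟩
    rw [MvPolynomial.eval_C, MvPolynomial.eval_C]
    have h3 : (c.num : ℚ) = c * c.den := (Rat.mul_den_eq_num c).symm
    rw [h3]
    push_cast
    ring
  | add p q hp hq =>
    obtain ⟨N, P', hN, h1⟩ := hp
    obtain ⟨M, Q', hM, h2⟩ := hq
    refine ⟨N * M, MvPolynomial.C M * P' + MvPolynomial.C N * Q', mul_ne_zero hN hM, fun x => ?_⟩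
    rw [map_add, map_add, map_mul, map_mul, MvPolynomial.eval_C, MvPolynomial.eval_C]
    push_cast
    rw [h1, h2]
    ring
  | mul_X p i hp =>
    obtain ⟨N, P', hN, h1⟩ := hp
    refine ⟨N, P' * MvPolynomial.X i, hN, fun x => ?_⟩
    rw [map_mul, map_mul, MvPolynomial.eval_X, MvPolynomial.eval_X]
    push_cast
    rw [h1]
    ring

/-- rational polynomial functions which vanish on a Zariski dense subgroup vanish everywhere -/
theorem IsPolyQ.dense {n : ℕ} {H : Subgroup (SLZ n)} (hD : ZDense H) {F : SLZ n → ℚ}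
    (hF : IsPolyQ F) (h : ∀ x ∈ H, F x = 0) (g : SLZ n) : F g = 0 := by
  obtain ⟨P, hP⟩ := hF
  obtain ⟨N, P', hN, h1⟩ := clear_poly P
  have h2 : ∀ x : SLZ n, ((MvPolynomial.eval
      (fun y : Fin n × Fin n => (x : Matrix (Fin n) (Fin n) ℤ) y.1 y.2) P' : ℤ) : ℚ)
      = N * F x := by
    intro x
    rw [h1, hP]
    rfl
  have h3 := hD P' (fun x hx => by
    have h4 := h2 x
    rw [h x hx, mul_zero] at h4
    exact_mod_cast h4) g
  have h5 := h2 g
  rw [h3, Int.cast_zero] at h5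
  rcases mul_eq_zero.1 h5.symm with h6 | h6
  · exact absurd (by exact_mod_cast h6) hN
  · exact h6

/-! ### Subspaces of nilpotent matrices -/

/-- all products of `N` or more elements of `𝔞` vanish -/
def ANil {n : ℕ} (𝔞 : Submodule ℚ (MQ n)) : Prop :=
  ∃ N : ℕ, ∀ l : List (MQ n), (∀ X ∈ l, X ∈ 𝔞) → N ≤ l.length → l.prod = 0

/-- every element of `𝔞` has a multiple whose exponential is an element of `H` -/
def Lat {n : ℕ} (H : Subgroup (SLZ n)) (𝔞 : Submodule ℚ (MQ n)) : Prop :=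
  ∀ X ∈ 𝔞, ∃ k : ℕ, 1 ≤ k ∧ ∃ h ∈ H, qg h = IsNilpotent.exp ((k : ℚ) • X)

/-- every vector is killed by a nonzero element of `𝔞` -/
def Star {n : ℕ} (𝔞 : Submodule ℚ (MQ n)) : Prop :=
  ∀ u : Fin n → ℚ, ∃ X ∈ 𝔞, X ≠ 0 ∧ X *ᵥ u = 0

/-- `𝔞` contains no matrix of rank one -/
def NoR1 {n : ℕ} (𝔞 : Submodule ℚ (MQ n)) : Prop :=
  ∀ e φ : Fin n → ℚ, vecMulVec e φ ∈ 𝔞 → vecMulVec e φ = 0

theorem ANil.nil {n : ℕ} {𝔞 : Submodule ℚ (MQ n)} (h : ANil 𝔞) {X : MQ n} (hX : X ∈ 𝔞) :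
    IsNilpotent X := by
  obtain ⟨N, hN⟩ := h
  refine ⟨N, ?_⟩
  have h1 := hN (List.replicate N X) (fun Y hY => by rw [List.eq_of_mem_replicate hY]; exact hX)
    (by rw [List.length_replicate])
  rwa [List.prod_replicate] at h1

/-- a polynomial family of nilpotent matrices `X u`, with `X u *ᵥ u = 0` -/
structure Fam {n : ℕ} (H : Subgroup (SLZ (n + 1)))
    (X : (Fin (n + 1) → ℚ) → MQ (n + 1)) : Prop where
  poly : ∀ i j, ∃ P : MvPolynomial (Fin (n + 1)) ℚ, ∀ u, X u i j = MvPolynomial.eval u P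
  kill : ∀ u, X u *ᵥ u = 0
  nil : ∀ u, IsNilpotent (X u)
  lat : ∀ u, ∃ k : ℕ, 1 ≤ k ∧ ∃ h ∈ H, qg h = IsNilpotent.exp ((k : ℚ) • X u)
  ne : ∃ (u w : Fin (n + 1) → ℚ) (i j : Fin (n + 1)), u i * (X u *ᵥ w) j ≠ u j * (X u *ᵥ w) i

/-- the family transported to the first basis vector -/
noncomputable def Ff {n : ℕ} (X : (Fin (n + 1) → ℚ) → MQ (n + 1)) (h : SLZ (n + 1)) : MQ (n + 1) :=
  qg h * X (qg h⁻¹ *ᵥ e0 n) * qg h⁻¹

/-- all products of `N` or more differences `a - 1`, `a ∈ A`, vanish -/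
def UNil {n : ℕ} (A : Subgroup (SLZ n)) : Prop :=
  ∃ N : ℕ, ∀ l : List (SLZ n), (∀ a ∈ l, a ∈ A) → N ≤ l.length →
    (l.map (fun a => qg a - 1)).prod = 0

/-- polynomial curves in the space of matrices -/
def PC {n : ℕ} (f : ℚ → MQ n) : Prop :=
  ∀ i j, ∃ p : Polynomial ℚ, ∀ t, f t i j = p.eval t

theorem PC.const {n : ℕ} (M : MQ n) : PC (fun _ => M) :=
  fun i j => ⟨Polynomial.C (M i j), fun t => by simp⟩

theorem PC.add {n : ℕ} {f g : ℚ → MQ n} (hf : PC f) (hg : PC g) : PC (fun t => f t + g t) := by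
  intro i j
  obtain ⟨p, hp⟩ := hf i j
  obtain ⟨q, hq⟩ := hg i j
  exact ⟨p + q, fun t => by rw [Polynomial.eval_add, ← hp, ← hq]; rfl⟩

theorem PC.mul {n : ℕ} {f g : ℚ → MQ n} (hf : PC f) (hg : PC g) : PC (fun t => f t * g t) := by
  intro i j
  choose p hp using hf
  choose q hq using hg
  refine ⟨∑ k, p i k * q k j, fun t => ?_⟩
  show (f t * g t) i j = _
  rw [Matrix.mul_apply, Polynomial.eval_finsetSum]
  apply Finset.sum_congr rfl
  intro k _
  rw [hp, hq, Polynomial.eval_mul]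

theorem PC.smul {n : ℕ} {f : ℚ → MQ n} (hf : PC f) (p : Polynomial ℚ) :
    PC (fun t => p.eval t • f t) := by
  intro i j
  obtain ⟨q, hq⟩ := hf i j
  exact ⟨p * q, fun t => by rw [Polynomial.eval_mul, ← hq]; rfl⟩

theorem PC.pow {n : ℕ} {f : ℚ → MQ n} (hf : PC f) (k : ℕ) : PC (fun t => f t ^ k) := by
  induction k with
  | zero => simp only [pow_zero]; exact PC.const 1
  | succ k ih => simp only [pow_succ]; exact ih.mul hf

theorem PC.sum {n : ℕ} {κ : Type} (s : Finset κ) (f : κ → ℚ → MQ n) (hf : ∀ k ∈ s, PC (f k)) :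
    PC (fun t => ∑ k ∈ s, f k t) := by
  classical
  induction s using Finset.induction_on with
  | empty => simp only [Finset.sum_empty]; exact PC.const 0
  | insert a s ha ih =>
    simp only [Finset.sum_insert ha]
    exact (hf a (Finset.mem_insert_self a s)).add
      (ih fun k hk => hf k (Finset.mem_insert_of_mem hk))

/-- a polynomial curve which is in a subspace for all nonzero parameters is in it everywhere -/
theorem PC.mem_zero {n : ℕ} {f : ℚ → MQ n} (hf : PC f) (𝔤 : Submodule ℚ (MQ n))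
    (h : ∀ t, t ≠ 0 → f t ∈ 𝔤) : f 0 ∈ 𝔤 := by
  by_contra hne
  obtain ⟨ℓ, hℓ1, hℓ2⟩ := Submodule.exists_le_ker_of_notMem hne
  choose p hp using hf
  set P : Polynomial ℚ := ∑ i, ∑ j, Polynomial.C (ℓ (Matrix.single i j 1)) * p i j with hP
  have key : ∀ t, ℓ (f t) = P.eval t := by
    intro t
    rw [hP, Polynomial.eval_finsetSum]
    conv_lhs => rw [Matrix.matrix_eq_sum_single (f t)]
    rw [map_sum]
    apply Finset.sum_congr rfl
    intro i _
    rw [map_sum, Polynomial.eval_finsetSum]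
    apply Finset.sum_congr rfl
    intro j _
    rw [Polynomial.eval_mul, Polynomial.eval_C, ← hp]
    have : Matrix.single i j (f t i j) = (f t i j) • Matrix.single i j (1 : ℚ) := by
      rw [Matrix.smul_single, smul_eq_mul, mul_one]
    rw [this, map_smul, smul_eq_mul, mul_comm]
  have hP0 : P = 0 := by
    apply Polynomial.eq_zero_of_infinite_isRoot
    apply Set.Infinite.mono (s := {t : ℚ | t ≠ 0})
    · intro t ht
      show P.eval t = 0
      rw [← key]
      exact hℓ2 (h t ht)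
    · have : {t : ℚ | t ≠ 0} = ({0} : Set ℚ)ᶜ := by ext; simp
      rw [this]
      exact Set.Finite.infinite_compl (Set.finite_singleton 0)
  apply hℓ1
  rw [key, hP0, Polynomial.eval_zero]

end Pool.Agent.UG
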