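import Pool.Agent.helper73.BRZ.Asm
import Pool.Agent.helper48.PR.AsmL

/-!
# Project ug: abstract groups with the finite quotients of `SL(n, ℤ)`.
-/

set_option autoImplicit false

namespace Pool.Agent.UG

open Pool.Agent.PR

theorem Abs_emb (n : ℕ) (hn : 3 ≤ n) (L : Type) [Group L] (hfg : Group.FG L)
    (hrf : ∀ g : L, g ≠ 1 → ∃ H : Subgroup L, H.index ≠ 0 ∧ g ∉ H)
    (h1 : ∀ (Q : Type) [Group Q] [Finite Q],
      (∃ f : L →* Q, Function.Surjective f) ↔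
      (∃ f : Matrix.SpecialLinearGroup (Fin n) ℤ →* Q, Function.Surjective f)) :
    ∃ H : Subgroup (Matrix.SpecialLinearGroup (Fin n) ℤ), Pool.Agent.H48SL.ProfDense H ∧
      Nonempty (L ≃* H) := by
  obtain ⟨R, hR, hd⟩ := Pool.Agent.BRZ.tEMB n hn L hfg (fun Q _ _ h => (h1 Q).mp h)
    (fun Q _ _ h => (h1 Q).mpr h) hrf
  refine ⟨R.range, ?_, ⟨MonoidHom.ofInjective hR⟩⟩
  apply tLPD n hn
  intro m hm γ
  obtain ⟨l, hl⟩ := hd m hm γ
  exact ⟨R l, ⟨l, rfl⟩, hl⟩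

end Pool.Agent.UG
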