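import Pool.Agent.helper54.UG.Core2
import Pool.Agent.helper10.UG.LG
import Pool.Agent.helper13.UG.LIN
import Pool.Agent.helper14.UG.EXI
import Pool.Agent.helper18.UG.COM
import Pool.Agent.helper2.UG.MAL
import Pool.Agent.helper20.UG.UGN
import Pool.Agent.helper21.UG.TRP
import Pool.Agent.helper29.UG.FIZ
import Pool.Agent.helper40.UG.EFI
import Pool.Agent.helper41.UG.KOL
import Pool.Agent.helper43.UG.EXD
import Pool.Agent.helper50.UG.DIM
import Pool.Agent.helper56.UG.FMA
import Pool.Agent.helper65.UG.NSG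
import Pool.Agent.helper71.UG.EXC
import Pool.Agent.helper74.UG.H1
import Pool.Agent.helper75.UG.ZD
import Pool.Agent.helper78.UG.CNJ
import Pool.Agent.helper79.UG.N2
import Pool.Agent.helper8.UG.R1
import Pool.Agent.helper83.UG.PRM
import Pool.Agent.helper84.UG.STP
import Pool.Agent.helper85.UG.EXJ
import Pool.Agent.helper88.UG.CRA
import Pool.Agent.helper91.UG.CLA
import Pool.Agent.helper92.UG.KOT
import Pool.Agent.helper95.UG.TRV
import Pool.Agent.helper98.UG.G0
import Pool.Agent.helper54.UG.FFA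
import Pool.Agent.helper99.UG.FFB
import Pool.Agent.helper99.UG.ISO
import Pool.Agent.helper63.UG.IND

/-!
# Project ug: assembly of Theorem G.
-/

set_option autoImplicit false

namespace Pool.Agent.UG

open Matrix Pool.Agent.H48SL

theorem tZD : ZD_stmt :=
  ZD EXD EXC EXJ (EXI EXJ) (FFA EXC) (FFB PRM (FFA EXC)) FIZ NSG

theorem tCLA : CLA_stmt := CLA EXD EXJ (FFA EXC) (FFB PRM (FFA EXC)) H1 EFI

theorem tG0 : G0_stmt :=
  G0 COM (N2 COM) (R1 EXJ) (FMA CRA) tZD tCLA TRV (STP EXD) (CNJ EXC)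

theorem tMAL : MAL_stmt := MAL EXJ (LG EXJ) ISO (LIN EXJ (LG EXJ)) UGN

theorem tKOL : KOL_stmt := KOL KOT

theorem tIND : IND_stmt := IND EXJ (LG EXJ) tMAL

end Pool.Agent.UG
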