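import Pool.Agent.helper54.UG.Spec2

/-!
# Project ug, row KD.
-/

set_option autoImplicit false

namespace Pool.Agent.UG

open Matrix Pool.Agent.H48SL

theorem KD (hKLF : KLF_stmt) (hKFD : KFD_stmt) (hKSD : KSD_stmt) (hKB : KB_stmt) : KD_stmt := by
  intro n D _ _ _ f H hD hn hH hZ
  have h1 := (hKLF n D f hn).1
  obtain ⟨m, rfl⟩ : ∃ m, n = m + 1 := ⟨n - 1, by omega⟩
  obtain ⟨X, hX⟩ := hKFD m D f H hD hn hH
  obtain ⟨𝔟, h𝔟⟩ := hKSD m D f H hD hn hH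
  exact hKB m (by omega) H X 𝔟 hZ hX h𝔟

end Pool.Agent.UG
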