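import Pool.Agent.helper54.UG.Asm
import Pool.Agent.helper92.UG.STQ
import Pool.Agent.helper88.UG.KB
import Pool.Agent.helper44.UG.KAD
import Pool.Agent.helper94.UG.KLF
import Pool.Agent.helper2.UG.KFD
import Pool.Agent.helper22.UG.KSD
import Pool.Agent.helper54.UG.KD
import Pool.Agent.helper31.UG.KFS
import Pool.Agent.helper8.UG.KSS
import Pool.Agent.helper20.UG.KS

/-!
# Project ug: assembly of Theorem N.
-/

set_option autoImplicit false

namespace Pool.Agent.UG

open Matrix Pool.Agent.H48SL

theorem tKB : KB_stmt := KB tG0 tZD tCLA TRV (STQ EXD)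

theorem tKD : KD_stmt := KD KLF (KFD KAD KLF) (KSD KLF) tKB

theorem tKS : KS_stmt := KS KFS KSS tKB

end Pool.Agent.UG
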