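import Pool.Agent.helper54.UG.Spec2

/-!
# Project ug (MP_a2a22c_al), part 3: orthogonal groups.

THEOREM O. Let `n ≥ 4`, `S` a nondegenerate symmetric matrix over `ℚ` whose form `B(x, y) = x ⬝ᵥ (S *ᵥ y)` is
isotropic. A Zariski dense subgroup of `SL(n, ℤ)` which contains a power of every element of
`SO(B; ℤ)` has finite index. (Rules as for Spec.lean; import Pool.Agent.helper54.UG.Spec3.)
-/

set_option autoImplicit false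

namespace Pool.Agent.UG

open Matrix Pool.Agent.H48SL

/-- the bilinear form of `S` -/
def bf {n : ℕ} (S : MQ n) (x y : Fin n → ℚ) : ℚ := x ⬝ᵥ (S *ᵥ y)

/-- `H` contains a power of every element of `SL(n, ℤ)` which preserves `S` -/
def OHyp {n : ℕ} (S : MQ n) (H : Subgroup (SLZ n)) : Prop :=
  ∀ g : SLZ n, (qg g)ᵀ * S * qg g = S → ∃ k : ℕ, 1 ≤ k ∧ g ^ k ∈ H

/-- the element `s ↦ B(v, s) a - B(a, s) v` of the orthogonal Lie algebra (`S` symmetric) -/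
def XX {n : ℕ} (S : MQ n) (v a : Fin n → ℚ) : MQ n := vecMulVec a (S *ᵥ v) - vecMulVec v (S *ᵥ a)

/-- SXP. Unipotent elements. Proof. `X = XX S v a`, `X s = B(v, s) a - B(a, s) v` (`S` symmetric).
`X² s = - B(a, a) B(v, s) v`, `X³ = 0`. `S X` is skew, so `Xᵀ S = - S X`, and `g = exp (k X)` satisfies
`gᵀ S g = S` (`exp (k X)ᵀ S = S exp (- k X)`, term by term). EXI gives `k ≥ 1` with
`exp (k X) = qg g`; by `OHyp` `g ^ j ∈ H`, `qg (g ^ j) = exp (j k X)` (EXJ (a)). -/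
def SXP_stmt : Prop :=
  ∀ (n : ℕ) (S : MQ n) (H : Subgroup (SLZ n)), Sᵀ = S → OHyp S H → ∀ v a : Fin n → ℚ,
    bf S v v = 0 → bf S v a = 0 → XX S v a * XX S v a * XX S v a = 0 ∧
    ∃ k : ℕ, 1 ≤ k ∧ ∃ h ∈ H, qg h = IsNilpotent.exp ((k : ℚ) • XX S v a)

/-- G0T. The transposed form of G0. Proof. TRP and G0 for `H'` and the space of the transposes of the
elements of `𝔞` (`exp (Xᵀ) = (exp X)ᵀ`, products reverse their order). -/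
def G0T_stmt : Prop :=
  ∀ (n : ℕ), 3 ≤ n → ∀ H : Subgroup (SLZ n), ZDense H → ∀ 𝔞 : Submodule ℚ (MQ n), ANil 𝔞 →
    Lat H 𝔞 → (∀ χ : Fin n → ℚ, ∃ X ∈ 𝔞, X ≠ 0 ∧ χ ᵥ* X = 0) → H.FiniteIndex

/-- KBT. The transposed form of KB. Proof. `Hb H` is Zariski dense (ZD); STQ and G0T for `Hb H` and
the image of `𝔟`, so `Hb H` has finite index. CLA, TRV. -/
def KBT_stmt : Prop :=
  ∀ (n : ℕ), 3 ≤ n → ∀ (H : Subgroup (SLZ (n + 1))) (X : (Fin (n + 1) → ℚ) → MQ (n + 1))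
    (𝔟 : Submodule ℚ (MQ (n + 1))), ZDense H → Fam H X → (∀ X ∈ 𝔟, X *ᵥ e0 n = 0) → ANil 𝔟 →
    Lat H 𝔟 → (∀ χ : Fin n → ℚ, ∃ Y ∈ 𝔟, dn Y ≠ 0 ∧ χ ᵥ* dn Y = 0) → H.FiniteIndex

/-- SFM. The family when there is a totally isotropic plane. Proof. By nondegeneracy there are
`q₁, q₂` with `B(pᵢ, qⱼ) = δᵢⱼ`. For a vector `u` let `yᵢ = B(u, pᵢ)`, `w = y₂ p₁ - y₁ p₂`,
`c = y₁ q₁ + y₂ q₂`, `a = B(u, c) p₁ - y₁ c`. Then `B(w, w) = 0`, `B(u, w) = 0`, `B(w, c) = 0`,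
`B(w, a) = 0`, `B(u, a) = 0`. `X(u) = XX S w a`: `X(u) u = 0`; `nil`, `lat` by SXP; the entries are polynomials
in `u`. `ne`: let `u = q₁ + α p₁` with `2 α + B(q₁, q₁) ≠ 0`: `y₁ = 1`, `y₂ = B(q₁, p₂) = 0`, `w = - p₂`,
`c = q₁`, `a = B(u, q₁) p₁ - q₁`. For `s = q₂`: `X(u) s = - a + B(a, s) p₂ = q₁ - (B(q₁, q₁) + α) p₁ + (..) p₂`,
which is not a multiple of `u = q₁ + α p₁` (`p₁, p₂, q₁` are independent and
`- (B(q₁, q₁) + α) ≠ α`); as `u ≠ 0`, some minor is nonzero. -/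
def SFM_stmt : Prop :=
  ∀ (n : ℕ) (S : MQ (n + 1)) (H : Subgroup (SLZ (n + 1))), Sᵀ = S → S.det ≠ 0 → OHyp S H →
    ∀ p₁ p₂ : Fin (n + 1) → ℚ, LinearIndependent ℚ ![p₁, p₂] → bf S p₁ p₁ = 0 → bf S p₁ p₂ = 0 →
    bf S p₂ p₂ = 0 → ∃ X : (Fin (n + 1) → ℚ) → MQ (n + 1), Fam H X

/-- SGB. The subspace `𝔟` when `e0` is isotropic. Proof. `𝔟 = {XX S e0 a : B(e0, a) = 0}` (a subspace,
`XX S e0` is linear in `a`). `XX S e0 a` kills `e0`; with `v = e0`, `χ = S v`: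
`XX S v a * XX S v b = - B(a, b) v ⊗ χ` and `(v ⊗ χ) * XX S v c = 0`: `ANil` with `N = 3`. `Lat`: SXP.
`dn (XX S v a) = a' ⊗ χ'` with `a', χ'` the restrictions to the indices `i.succ` (`v ⊗ S a` contributes only
to row `0`). `χ_0 = B(e0, e0) = 0` and `χ ≠ 0`, so `χ' ≠ 0`. Given `η`, the `a` with `B(v, a) = 0` and
`η ⬝ a' = 0` form a space of dimension `≥ n - 1 ≥ 2`, so it contains `a ∉ ℚ e0`, `a' ≠ 0`, and
`η ᵥ* (a' ⊗ χ') = (η ⬝ a') χ' = 0`. -/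
def SGB_stmt : Prop :=
  ∀ (n : ℕ), 3 ≤ n → ∀ (S : MQ (n + 1)) (H : Subgroup (SLZ (n + 1))), Sᵀ = S → S.det ≠ 0 → OHyp S H →
    bf S (e0 n) (e0 n) = 0 → ∃ 𝔟 : Submodule ℚ (MQ (n + 1)), (∀ X ∈ 𝔟, X *ᵥ e0 n = 0) ∧ ANil 𝔟 ∧
    Lat H 𝔟 ∧ (∀ χ : Fin n → ℚ, ∃ Y ∈ 𝔟, dn Y ≠ 0 ∧ χ ᵥ* dn Y = 0)

/-- SCJ. Change of basis. Proof. As CNJ (Pool/Agent/helper78/UG/CNJ.lean, `CNJ_vec`): `g e0 = c v`,
`H' = H.comap (MulAut.conj g)` = `g⁻¹ H g`. If `x` preserves `gᵀ S g` then `g x g⁻¹` preserves `S`. -/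
def SCJ_stmt : Prop :=
  ∀ (n : ℕ), 1 ≤ n → ∀ (S : MQ (n + 1)) (H : Subgroup (SLZ (n + 1))), ZDense H → OHyp S H →
    ∀ v : Fin (n + 1) → ℚ, v ≠ 0 →
    ∃ (g : SLZ (n + 1)) (c : ℚ) (H' : Subgroup (SLZ (n + 1))), c ≠ 0 ∧ qg g *ᵥ e0 n = c • v ∧
      ZDense H' ∧ OHyp ((qg g)ᵀ * S * qg g) H' ∧ (H'.FiniteIndex → H.FiniteIndex)

/-- SI2. Theorem O when there is a totally isotropic plane. Proof. SCJ for `v = p₁`; with
`S' = gᵀ S g` the vectors `g⁻¹ p₁`, `g⁻¹ p₂` span a totally isotropic plane and `B'(e0, e0) = 0`. SFM, SGB,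
KBT. -/
def SI2_stmt : Prop :=
  ∀ (n : ℕ), 4 ≤ n → ∀ (S : MQ n) (H : Subgroup (SLZ n)), Sᵀ = S → S.det ≠ 0 → OHyp S H → ZDense H →
    ∀ p₁ p₂ : Fin n → ℚ, LinearIndependent ℚ ![p₁, p₂] → bf S p₁ p₁ = 0 → bf S p₁ p₂ = 0 →
    bf S p₂ p₂ = 0 → H.FiniteIndex

/-- PLN. Planes without rational isotropic vectors. Proof. `U = u^⊥` is nondegenerate of dimension
`n - 1 ≥ 3`. There is `b ∈ U` with `B(b, b) ≠ 0`, `B(w, b) ≠ 0` (both are nonzero polynomials on `U`; or: if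
`B(b, b) = 0` for some `b` with `B(w, b) ≠ 0` take `b + ε b'`). The claim is symmetric under `S → - S`
with `x, y` exchanged, so let `B(b, b) > 0`. `U₁ = U ∩ b^⊥` contains `y` with `B(y, y) < 0` (otherwise
`B ≥ 0` on `U = ℚ b ⊕ U₁`, against `y₀`). `U₂ = U₁ ∩ y^⊥` is nondegenerate of dimension `≥ 1`; take
`z ∈ U₂`, `B(z, z) = D ≠ 0`. Let `A = B(b, b)`, `C = - B(y, y)`. If `A C` is no square take `x = b`, `y`.
Otherwise `A C = s²`. If `D < 0` replace `y` by `y + t z`: `- A B(y + t z, y + t z) = s² + t² A |D|`. If `D > 0`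
replace `b` by `b + t z`: `C B(b + t z, b + t z) = s² + t² C D` and `B(w, b + t z) ≠ 0` for all small `t`. It remains: for
`s, m ∈ ℚ`, `m > 0`, `s² + t² m` is not a square for `t = 1 / N`, for infinitely many `N`: let `m = c / d`,
`s = a / b`, `N = b d M`; `(N² s² + m) d² = (a d² M)² + c d`, an integer strictly between two
consecutive squares for large `M` (`s ≠ 0` as `A C > 0`), so not the square of a rational. -/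
def PLN_stmt : Prop :=
  ∀ (n : ℕ), 4 ≤ n → ∀ S : MQ n, Sᵀ = S → S.det ≠ 0 → ∀ u w x₀ y₀ : Fin n → ℚ, bf S u u ≠ 0 →
    bf S u w = 0 → w ≠ 0 → bf S u x₀ = 0 → bf S u y₀ = 0 → 0 < bf S x₀ x₀ → bf S y₀ y₀ < 0 →
    ∃ x y : Fin n → ℚ, bf S u x = 0 ∧ bf S u y = 0 ∧ bf S x y = 0 ∧ 0 < bf S x x ∧ bf S y y < 0 ∧
      ¬ IsSquare (- (bf S x x * bf S y y)) ∧ (bf S w x ≠ 0 ∨ bf S w y ≠ 0)

/-- PEL. Pell elements. Proof. `A = B(x, x) > 0`, `C = - B(y, y) > 0`, `A C = e₁ / e₂²` with integers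
`e₁, e₂ ≥ 1`, `e₁` no square (`A C = num / den = num * den / den²`). `M₁ s = (B(x, s) / A) x - (B(y, s) / C) y`
(projection to the plane), `M₂ s = e₂ (B(x, s) y - B(y, s) x)`: `M₁² = M₁`, `M₁ M₂ = M₂ M₁ = M₂`,
`M₂² = e₁ M₁`. For `α² - e₁ β² = 1` let `T(α, β) = 1 + (α - 1) M₁ + β M₂`; it preserves `S`, and
`T(α, β) T(α', β') = T(α α' + e₁ β β', α β' + α' β)` (the product of Pell solutions). Let `M ≥ 1` be an integer such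
that `M M₁`, `M M₂` are integral. By Mathlib (`Pell.exists_of_not_isSquare`, `Pell.Solution₁`) there is a
solution with `β ≠ 0`; a power of its square has `α ≡ 1`, `β ≡ 0` modulo `M` (pigeonhole on the pairs
`(α, β)` modulo `M`, invertible), `β ≠ 0`. Then `T(α, β)` is integral, of determinant `1` (`± 1` as it
preserves `S`, and it is a square `T(α', β')²`, or compute), let `g` be this element. `g ^ j = T(α_j, β_j)` with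
`β_j ≠ 0` (solutions of infinite order). If `B(s, x) = B(s, y) = 0` then `M₁ s = M₂ s = 0`, `g s = s`. Let
`B(w, x) ≠ 0` or `B(w, y) ≠ 0` and `g ^ j w = c w`: `w' = M₁ w ≠ 0` and `M₁` commutes with `g`, so
`(α_j - c) w' + β_j M₂ w' = 0`, `M₂ w' = d w'` with `d` rational, `e₁ w' = M₂² w' = d² w'`, `e₁ = d²`, contradiction. -/
def PEL_stmt : Prop :=
  ∀ (n : ℕ) (S : MQ n), Sᵀ = S → S.det ≠ 0 → ∀ x y : Fin n → ℚ, bf S x y = 0 → 0 < bf S x x →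
    bf S y y < 0 → ¬ IsSquare (- (bf S x x * bf S y y)) →
    ∃ g : SLZ n, (qg g)ᵀ * S * qg g = S ∧
      (∀ s, bf S s x = 0 → bf S s y = 0 → qg g *ᵥ s = s) ∧
      ∀ j : ℕ, 1 ≤ j → ∀ w, (bf S w x ≠ 0 ∨ bf S w y ≠ 0) → ∀ c : ℚ, qg (g ^ j) *ᵥ w ≠ c • w

/-- SGL. The sign lemma for signature `(n-1, 1)`. Proof. Let `Q(x, y) = B(g x, g y)`. Suppose the claim is false:
(*) `Q(x, x) = 0` implies `B(x, x) ≤ 0` for rational `x` (`y = g x`). We have `B(v, v) = 0 > Q(v, v)`. (a) If `x` is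
rational with `B(x, x) > 0`, `B(v, x) ≠ 0` then `Q(x, x) ≤ 0`. Suppose `Q(x, x) > 0`; let `B(v, x) > 0` (replace
`x` by `-x`). For real `t ∈ [0, 1]` let `s(t) = (1 - t) v + t x`: `B(s, s) = 2 t (1 - t) B(v, x) + t² B(x, x) > 0` for
`t > 0`, and `Q(s, s)` changes sign: there is `t* ∈ (0, 1)` with `Q(s(t*), s(t*)) = 0 < B(s(t*), s(t*))`. The rational
`Q`-isotropic vectors span `ℚⁿ` (as `n ≥ 3`, `B` is nondegenerate and isotropic: for `x` with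
`B(v, x) ≠ 0`, `B(x, x) v - 2 B(v, x) x` is isotropic), so there is a rational `Q`-isotropic `x₁` with
`Q(x₁, s(t*)) ≠ 0`. For rational `t` the vector `r(t) = Q(s, s) x₁ - 2 Q(x₁, s) s` (`s = s(t)`) is
`Q`-isotropic, and `B(r, r)` is continuous in `t` with the value `4 Q(x₁, s)² B(s, s) > 0` at `t*`; so
`B(r(t), r(t)) > 0` for a rational `t` near `t*`, against (*). (b) `Q(x, x) ≤ 0` for all rational `x` with
`B(u₀, x) = 0`: if `B(v, x) ≠ 0` this is (a) (`x ≠ 0`, `B(x, x) > 0`); in general take `x'` with `B(u₀, x') = 0`,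
`B(v, x') ≠ 0` (exists since `v ∉ ℚ u₀`, as `B(v, v) = 0`, `v ≠ 0`) and let `ε → 0` in `x + ε x'`. (c) The
space of the `x` with `B(u₀, x) = 0 = B(u₀, g x)` has dimension `≥ n - 2 ≥ 1`; for `x ≠ 0` in it
`Q(x, x) = B(g x, g x) > 0`, against (b). -/
def SGL_stmt : Prop :=
  ∀ (n : ℕ), 3 ≤ n → ∀ S : MQ n, Sᵀ = S → S.det ≠ 0 → ∀ u₀ : Fin n → ℚ, bf S u₀ u₀ < 0 →
    (∀ x, bf S u₀ x = 0 → x ≠ 0 → 0 < bf S x x) → ∀ (g : SLZ n) (v : Fin n → ℚ), bf S v v = 0 →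
    bf S (qg g *ᵥ v) (qg g *ᵥ v) < 0 →
    ∃ y : Fin n → ℚ, bf S y y = 0 ∧ 0 < bf S (qg g⁻¹ *ᵥ y) (qg g⁻¹ *ᵥ y)

/-- SUI. A good translate of an isotropic vector. Proof. `IsPolyQ.dense`: there is `g ∈ H` with
`B(g⁻¹ v₀, g⁻¹ v₀) ≠ 0` (not all vectors `g⁻¹ v₀`, `g ∈ SL(n, ℤ)`, are isotropic: PRM-like, or: `xe`-translates of a
vector span...; simplest: if all `g v₀` are isotropic, expand `B` at `v₀ + (φ ⬝ v₀) e` for transvections to get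
`B(e, e) = 0` for all `e` with some `φ ⬝ e = 0`, `φ ⬝ v₀ ≠ 0`, so `B = 0`). Let `u = g⁻¹ v₀`. `u^⊥` is
nondegenerate. If it contains vectors of both signs we are done with `v = v₀`. Otherwise `B` is definite on
`u^⊥` (a nondegenerate semidefinite form is definite); the claim is symmetric under `S → - S`, so let it be
positive definite; then `B(u, u) < 0` (as `v₀` is isotropic). SGL with `u₀ = u`, `g'' = g⁻¹`, `v = v₀`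
(`B(g'' v₀, g'' v₀) = B(u, u) < 0`) gives an isotropic `y` with `B(g y, g y) > 0`. Take `v = y`, and `g⁻¹ ∈ H` for `g`:
`u' = g y`. `u'^⊥` contains a vector of negative square: otherwise `B ≥ 0` on
`ℚ u' ⊕ u'^⊥`, against `B(u, u) < 0`; and of positive square: `u'^⊥ ∩ u^⊥ ≠ 0` (`n ≥ 3`). (`y ≠ 0`.) -/
def SUI_stmt : Prop :=
  ∀ (n : ℕ), 4 ≤ n → ∀ (S : MQ n) (H : Subgroup (SLZ n)), Sᵀ = S → S.det ≠ 0 → ZDense H →
    (∃ v : Fin n → ℚ, v ≠ 0 ∧ bf S v v = 0) →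
    ∃ g ∈ H, ∃ v : Fin n → ℚ, v ≠ 0 ∧ bf S v v = 0 ∧
      bf S (qg g⁻¹ *ᵥ v) (qg g⁻¹ *ᵥ v) ≠ 0 ∧
      ∃ x y : Fin n → ℚ, bf S (qg g⁻¹ *ᵥ v) x = 0 ∧ bf S (qg g⁻¹ *ᵥ v) y = 0 ∧ 0 < bf S x x ∧
        bf S y y < 0

/-- SH1. An element which fixes `v` but not `v^⊥`. Proof. `g`, `v`, `x₀`, `y₀` from SUI, `u = g⁻¹ v`. Let
`w = S⁻¹ *ᵥ ((S *ᵥ v) ᵥ* qg g)`, so `B(w, s) = B(v, g s)`; `w ≠ 0`, `B(u, w) = B(v, v) = 0`. PLN gives `x`, `y`, PEL the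
element `T`, and `T ^ k ∈ H` by `OHyp`. `T u = u` (`u ⊥ x, y`). `h = g T ^ k g⁻¹`: `h v = v`. If
`(S v) ᵥ* h = c (S v)` then `((S v) ᵥ* g) ᵥ* T ^ k = c ((S v) ᵥ* g)`, i.e. `B(w, T ^ k s) = c B(w, s)` for all `s`, so
`T ^ (-k) w = c w`, `c ≠ 0`, `T ^ k w = c⁻¹ w`, against PEL. -/
def SH1_stmt : Prop :=
  ∀ (n : ℕ), 4 ≤ n → ∀ (S : MQ n) (H : Subgroup (SLZ n)), Sᵀ = S → S.det ≠ 0 → OHyp S H →
    ZDense H → (∃ v : Fin n → ℚ, v ≠ 0 ∧ bf S v v = 0) →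
    ∃ (v : Fin n → ℚ) (h : SLZ n), v ≠ 0 ∧ bf S v v = 0 ∧ h ∈ H ∧ qg h *ᵥ v = v ∧
      ∀ c : ℚ, (S *ᵥ v) ᵥ* qg h ≠ c • (S *ᵥ v)

/-- SCM. The commutator. Proof. `χ = S v`, `χ₁ = χ ᵥ* h⁻¹`, `b = h⁻¹ a`, `X₁ = XX S v a`,
`X₂ = h (XX S v b) h⁻¹ = a ⊗ χ₁ - v ⊗ β`, `β = (S b) ᵥ* h⁻¹`. With `p = B(a, a)`, `r = B(b, b)`: `X₁ v = X₂ v = 0`,
`X₁² = - p v ⊗ χ`, `X₂² = - r v ⊗ χ₁`, `X₁ X₂ = - p v ⊗ χ₁`, `X₂ X₁ = - r v ⊗ χ`, all products of three of them are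
`0` (`χ a = χ₁ a = 0`, `χ v = χ₁ v = 0`, `(S a) v = 0`, `β v = 0`, `(S a) a = p`, `β a = r`). By SXP and EXC there is
`k ≥ 1` with `e₁ = exp (k X₁)`, `e₂ = exp (k X₂)` in `H` (take a common multiple, EXJ (a)). As
`exp Y = 1 + Y + Y²/2`, the commutator `z = e₁ e₂ e₁⁻¹ e₂⁻¹` is
`1 + k² (X₁ X₂ - X₂ X₁) = 1 + v ⊗ φ`, `φ = k² (r χ - p χ₁)` (`e₁ e₂ = z e₂ e₁`). `χ₁ ∉ ℚ χ` (hypothesis on `h`), so
`φ ∉ ℚ χ`, and there is `c` with `χ c = 0`, `φ c ≠ 0`. `φ v = 0`. Let `g = exp (m (XX S v c)) ∈ H` (SXP), `m ≥ 1`: `g v = v`;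
`φ g⁻¹ = φ - m (φ c) χ` (`φ ᵥ* XX S v c = (φ c) χ - (φ v) S c`, `χ ᵥ* XX S v c = 0`). So `φ g⁻¹ ≠ ± φ`
(`φ ∉ ℚ χ`, `φ c ≠ 0`). With nonzero integers `N₁ v = v₁`, `N₂ φ = φ₁` integral (`clear_denom`; positive),
`z ^ (N₁ N₂) = 1 + v₁ ⊗ φ₁ = tv v₁ φ₁`. `final_coef` for `z ^ (N₁ N₂)` and `g`: the coefficient is
`φ₁ (g v₁) = φ₁ v₁ = 0`, and `g z' g⁻¹ = tv v₁ (φ₁ g⁻¹) ≠ z' ^ (± 1)`. -/
def SCM_stmt : Prop :=
  ∀ (n : ℕ), 4 ≤ n → ∀ (S : MQ n) (H : Subgroup (SLZ n)), Sᵀ = S → S.det ≠ 0 → OHyp S H →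
    ZDense H → ∀ (v a : Fin n → ℚ) (h : SLZ n), v ≠ 0 → bf S v v = 0 → h ∈ H → qg h *ᵥ v = v →
    (∀ c : ℚ, (S *ᵥ v) ᵥ* qg h ≠ c • (S *ᵥ v)) → bf S v a = 0 → bf S v (qg h⁻¹ *ᵥ a) = 0 →
    bf S a a ≠ 0 → H.FiniteIndex

/-- SOF. Theorem O. Proof. If there is a totally isotropic plane, SI2. Otherwise SH1 gives `v`, `h`. The `a`
with `B(v, a) = 0 = B(v, h⁻¹ a)` form a space of dimension `≥ n - 2 ≥ 2`; take `a ∉ ℚ v` in it. If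
`B(a, a) = 0` then `v`, `a` span a totally isotropic plane. So `B(a, a) ≠ 0`, and SCM. -/
def SOF_stmt : Prop :=
  ∀ (n : ℕ), 4 ≤ n → ∀ (S : MQ n) (H : Subgroup (SLZ n)), Sᵀ = S → S.det ≠ 0 → OHyp S H →
    (∃ v : Fin n → ℚ, v ≠ 0 ∧ bf S v v = 0) → ZDense H → H.FiniteIndex

end Pool.Agent.UG
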