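import Pool.Agent.helper54.UG.Asm2
import Pool.Agent.helper54.UG.Spec3
import Pool.Agent.helper39.UG.SXP
import Pool.Agent.helper88.UG.G0T
import Pool.Agent.helper9.UG.KBT
import Pool.Agent.helper13.UG.SFM
import Pool.Agent.helper6.UG.SGB
import Pool.Agent.helper61.UG.SCJ
import Pool.Agent.helper98.UG.SI2
import Pool.Agent.helper36.UG.PLN
import Pool.Agent.helper16.UG.PEL
import Pool.Agent.helper45.UG.SGL
import Pool.Agent.helper29.UG.SUI
import Pool.Agent.helper35.UG.SH1
import Pool.Agent.helper8.UG.SCM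
import Pool.Agent.helper43.UG.SOF

/-!
# Project ug: assembly of Theorem O.
-/

set_option autoImplicit false

namespace Pool.Agent.UG

open Matrix Pool.Agent.H48SL

theorem tSXP : SXP_stmt := SXP EXJ (EXI EXJ)

theorem tG0T : G0T_stmt := G0T TRP tG0

theorem tKBT : KBT_stmt := KBT tZD tCLA TRV (STQ EXD) tG0T

theorem tSI2 : SI2_stmt := SI2 SCJ (SFM tSXP) (SGB tSXP) tKBT

theorem tSH1 : SH1_stmt := SH1 (SUI SGL) PLN PEL

theorem tSOF : SOF_stmt := SOF tSI2 tSH1 (SCM EXC EXJ tSXP)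

end Pool.Agent.UG
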