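import Pool.Agent.helper54.UG.Spec2

/-!
# Project ug: from the rows to the theorems on subgroups of `SL(n, ℤ)`.
-/

set_option autoImplicit false

namespace Pool.Agent.UG

open Matrix Pool.Agent.H48SL

theorem Core_nil {n : ℕ} {a : SLZ n} (h : IsNilpotent ((a : Matrix (Fin n) (Fin n) ℤ) - 1)) :
    IsNilpotent (qg a - 1) := by
  have h1 := h.map (Int.castRingHom ℚ).mapMatrix
  rw [map_sub, map_one] at h1
  exact h1

/-- the subspace of a unipotent group -/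
theorem Core_sub (hKOL : KOL_stmt) (hMAL : MAL_stmt) {n : ℕ} {A : Subgroup (SLZ n)}
    (hA : ∀ a ∈ A, IsNilpotent ((a : Matrix (Fin n) (Fin n) ℤ) - 1)) :
    ∃ 𝔞 : Submodule ℚ (MQ n), ANil 𝔞 ∧
    (∀ X ∈ 𝔞, ∃ k : ℕ, 1 ≤ k ∧ ∃ a ∈ A, qg a = IsNilpotent.exp ((k : ℚ) • X)) ∧
    (∀ a ∈ A, ∃ X ∈ 𝔞, qg a = IsNilpotent.exp X) ∧ UNil A := by
  have h1 := hKOL n A (fun a ha => Core_nil (hA a ha))
  obtain ⟨𝔞, h2, h3, h4⟩ := hMAL n A h1
  exact ⟨𝔞, h2, h3, h4, h1⟩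

/-- Theorem G for vectors -/
theorem Core_G (hG0 : G0_stmt) (hEXJ : EXJ_stmt) (hKOL : KOL_stmt) (hMAL : MAL_stmt) {n : ℕ}
    (hn : 3 ≤ n) {H : Subgroup (SLZ n)} (hD : ZDense H) {A : Subgroup (SLZ n)} (hAH : A ≤ H)
    (hA : ∀ a ∈ A, IsNilpotent ((a : Matrix (Fin n) (Fin n) ℤ) - 1))
    (hs : ∀ v : Fin n → ℤ, ∃ a ∈ A, a ≠ 1 ∧ (a : Matrix (Fin n) (Fin n) ℤ) *ᵥ v = v) :
    H.FiniteIndex := by
  obtain ⟨𝔞, h2, h3, h4, _⟩ := Core_sub hKOL hMAL hA
  refine hG0 n hn H hD 𝔞 h2 ?_ ?_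
  · intro X hX
    obtain ⟨k, hk, a, ha, h⟩ := h3 X hX
    exact ⟨k, hk, a, hAH ha, h⟩
  · intro u
    obtain ⟨N, w, hN, hw⟩ := clear_denom u
    obtain ⟨a, ha, ha1, haw⟩ := hs w
    obtain ⟨X, hX, haX⟩ := h4 a ha
    refine ⟨X, hX, ?_, ?_⟩
    · rintro rfl
      apply ha1
      apply qg_inj
      rw [haX, IsNilpotent.exp_zero, qg_one]
    · have h5 : X *ᵥ castV w = 0 := by
        apply (hEXJ n X (h2.nil hX)).2.1
        rw [← haX, qg_mulVec_castV, haw]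
      rw [hw, mulVec_smul] at h5
      rcases smul_eq_zero.1 h5 with h6 | h6
      · exact absurd (by exact_mod_cast h6) hN
      · exact h6

/-- Theorem G for covectors -/
theorem Core_GT (hG0 : G0_stmt) (hEXJ : EXJ_stmt) (hKOL : KOL_stmt) (hMAL : MAL_stmt)
    (hTRP : TRP_stmt) {n : ℕ}
    (hn : 3 ≤ n) {H : Subgroup (SLZ n)} (hD : ZDense H) {A : Subgroup (SLZ n)} (hAH : A ≤ H)
    (hA : ∀ a ∈ A, IsNilpotent ((a : Matrix (Fin n) (Fin n) ℤ) - 1))
    (hs : ∀ v : Fin n → ℤ, ∃ a ∈ A, a ≠ 1 ∧ v ᵥ* (a : Matrix (Fin n) (Fin n) ℤ) = v) :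
    H.FiniteIndex := by
  obtain ⟨H', hD', hH', hfi⟩ := hTRP n H hD
  apply hfi
  have htt : ∀ a : SLZ n, a.transpose.transpose = a := fun a => by
    apply SL_ext
    simp
  have hmul : ∀ a b : SLZ n, (a * b).transpose = b.transpose * a.transpose := fun a b => by
    apply SL_ext
    simp [Matrix.transpose_mul]
  have hone : (1 : SLZ n).transpose = 1 := by
    apply SL_ext
    simp
  set A' : Subgroup (SLZ n) :=
    { carrier := {a | a.transpose ∈ A}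
      one_mem' := by
        show (1 : SLZ n).transpose ∈ A
        rw [hone]; exact A.one_mem
      mul_mem' := by
        intro a b ha hb
        show (a * b).transpose ∈ A
        rw [hmul]
        exact A.mul_mem hb ha
      inv_mem' := by
        intro a ha
        show (a⁻¹).transpose ∈ A
        have h1 : (a⁻¹).transpose * a.transpose = 1 := by
          rw [← hmul, mul_inv_cancel, hone]
        rw [eq_inv_of_mul_eq_one_left h1]
        exact A.inv_mem ha } with hA'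
  have hmemA : ∀ a, a ∈ A' ↔ a.transpose ∈ A := fun a => Iff.rfl
  refine Core_G hG0 hEXJ hKOL hMAL hn hD' (A := A') ?_ ?_ ?_
  · intro a ha
    rw [hH']
    exact hAH ((hmemA a).1 ha)
  · intro a ha
    obtain ⟨k, hk⟩ := hA _ ((hmemA a).1 ha)
    refine ⟨k, ?_⟩
    have h1 := congrArg Matrix.transpose hk
    rw [Matrix.transpose_pow, Matrix.transpose_sub, Matrix.transpose_one, Matrix.transpose_zero] at h1
    have h2 : ((a.transpose : SLZ n) : Matrix (Fin n) (Fin n) ℤ).transpose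
        = (a : Matrix (Fin n) (Fin n) ℤ) := by simp
    rw [h2] at h1
    exact h1
  · intro v
    obtain ⟨a, ha, ha1, hav⟩ := hs v
    refine ⟨a.transpose, ?_, ?_, ?_⟩
    · rw [hmemA, htt]; exact ha
    · intro h
      apply ha1
      rw [← htt a, h, hone]
    · have h2 : ((a.transpose : SLZ n) : Matrix (Fin n) (Fin n) ℤ)
        = (a : Matrix (Fin n) (Fin n) ℤ).transpose := rfl
      rw [h2, Matrix.mulVec_transpose]
      exact hav

/-- independent sequences -/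
theorem Core_I (hG0 : G0_stmt) (hKOL : KOL_stmt) (hMAL : MAL_stmt) (hIND : IND_stmt)
    (hDIM : DIM_stmt) {n : ℕ} (hn : 3 ≤ n) {H : Subgroup (SLZ n)} (hD : ZDense H)
    (a : Fin n → SLZ n) (haH : ∀ i, a i ∈ H)
    (hA : ∀ b ∈ Subgroup.closure (Set.range a), IsNilpotent ((b : Matrix (Fin n) (Fin n) ℤ) - 1))
    (hi : ∀ i, ∀ k : ℕ, 1 ≤ k → a i ^ k ∉ Subgroup.closure {b | ∃ j, j < i ∧ b = a j}) :
    H.FiniteIndex := by
  obtain ⟨𝔞, h2, h3, h4, h5⟩ := Core_sub hKOL hMAL hA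
  have h6 := hIND n _ h5 𝔞 h2 h3 h4 n a (fun i => Subgroup.subset_closure ⟨i, rfl⟩) hi
  refine hG0 n hn H hD 𝔞 h2 ?_ (hDIM n (by omega) 𝔞 h2 h6)
  intro X hX
  obtain ⟨k, hk, b, hb, h⟩ := h3 X hX
  refine ⟨k, hk, b, ?_, h⟩
  have h7 : Subgroup.closure (Set.range a) ≤ H := by
    rw [Subgroup.closure_le]
    rintro _ ⟨i, rfl⟩
    exact haH i
  exact h7 hb

end Pool.Agent.UG
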