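import Pool.Agent.helper54.UG.Core

/-!
# Project ug: abelian groups `1 + span X_i`, `X_i X_j = 0`.
-/

set_option autoImplicit false

namespace Pool.Agent.UG

open Matrix Pool.Agent.H48SL

theorem Core2_mem {n m : ℕ} {K : Subgroup (SLZ n)} {X : Fin m → Matrix (Fin n) (Fin n) ℤ}
    (h0 : ∀ i j, X i * X j = 0) (hX : ∀ i, ∃ h ∈ K, (h : Matrix (Fin n) (Fin n) ℤ) = 1 + X i)
    (c : Fin m → ℤ) (s : Finset (Fin m)) :
    ∃ h ∈ K, (h : Matrix (Fin n) (Fin n) ℤ) = 1 + ∑ i ∈ s, c i • X i := by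
  classical
  induction s using Finset.induction_on with
  | empty => exact ⟨1, K.one_mem, by simp⟩
  | insert a s ha ih =>
    obtain ⟨h, hh, h1⟩ := ih
    obtain ⟨g, hg, h2⟩ := hX a
    refine ⟨g ^ (c a) * h, K.mul_mem (K.zpow_mem hg _) hh, ?_⟩
    rw [Matrix.SpecialLinearGroup.coe_mul, h1, coe_zpow_of_sq_zero h2 (h0 a a),
      Finset.sum_insert ha]
    have h3 : (c a • X a) * ∑ i ∈ s, c i • X i = 0 := by
      rw [Finset.mul_sum]
      apply Finset.sum_eq_zero
      intro i _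
      rw [Matrix.smul_mul, Matrix.mul_smul, h0, smul_zero, smul_zero]
    rw [Matrix.add_mul, Matrix.one_mul, Matrix.mul_add, Matrix.mul_one, h3, add_zero]
    abel

theorem Core2_dep {n m : ℕ} (P : Submodule ℚ (Fin n → ℚ)) (hP : Module.finrank ℚ P < m)
    (w : Fin m → Fin n → ℤ) (hw : ∀ i, castV (w i) ∈ P) :
    ∃ c : Fin m → ℤ, c ≠ 0 ∧ ∑ i, c i • w i = 0 := by
  have h1 : ¬ LinearIndependent ℚ (fun i => (⟨castV (w i), hw i⟩ : P)) := by
    intro h
    have h2 := h.fintype_card_le_finrank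
    rw [Fintype.card_fin] at h2
    omega
  rw [Fintype.not_linearIndependent_iff] at h1
  obtain ⟨c, hc, i, hi⟩ := h1
  obtain ⟨N, d, hN, hd⟩ := clear_denom c
  refine ⟨d, ?_, ?_⟩
  · rintro rfl
    rw [castV_zero] at hd
    rcases smul_eq_zero.1 hd.symm with h | h
    · exact hN (by exact_mod_cast h)
    · exact hi (by rw [h]; rfl)
  · apply castV_inj
    rw [castV_zero]
    have h3 : castV (∑ i, d i • w i) = ∑ i, (d i : ℚ) • castV (w i) := by
      ext j
      simp [castV, Finset.sum_apply]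
    rw [h3]
    have h4 : ∀ i, (d i : ℚ) = N * c i := fun i => by
      have := congrFun hd i
      simpa [castV] using this
    have h5 : ∑ i, c i • castV (w i) = 0 := by
      have h6 := congrArg (fun x : P => (x : Fin n → ℚ)) hc
      simpa using h6
    calc ∑ i, (d i : ℚ) • castV (w i) = ∑ i, (N : ℚ) • (c i • castV (w i)) := by
          apply Finset.sum_congr rfl
          intro i _
          rw [h4, smul_smul]
      _ = 0 := by rw [← Finset.smul_sum, h5, smul_zero]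

/-- the abelian group `1 + ∑ c_i X_i` -/
def Core2_grp {n m : ℕ} (X : Fin m → Matrix (Fin n) (Fin n) ℤ) (h0 : ∀ i j, X i * X j = 0) :
    Subgroup (SLZ n) where
  carrier := {h | ∃ c : Fin m → ℤ, (h : Matrix (Fin n) (Fin n) ℤ) = 1 + ∑ i, c i • X i}
  one_mem' := ⟨0, by simp⟩
  mul_mem' := by
    rintro a b ⟨c, hc⟩ ⟨d, hd⟩
    refine ⟨c + d, ?_⟩
    have h3 : (∑ i, c i • X i) * (∑ i, d i • X i) = 0 := by
      rw [Finset.sum_mul_sum]
      apply Finset.sum_eq_zero
      intro i _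
      apply Finset.sum_eq_zero
      intro j _
      rw [Matrix.smul_mul, Matrix.mul_smul, h0, smul_zero, smul_zero]
    rw [Matrix.SpecialLinearGroup.coe_mul, hc, hd, Matrix.add_mul, Matrix.one_mul, Matrix.mul_add,
      Matrix.mul_one, h3, add_zero]
    simp only [Pi.add_apply, add_smul, Finset.sum_add_distrib]
    abel
  inv_mem' := by
    rintro a ⟨c, hc⟩
    have h3 : (∑ i, c i • X i) * (∑ i, c i • X i) = 0 := by
      rw [Finset.sum_mul_sum]
      apply Finset.sum_eq_zero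
      intro i _
      apply Finset.sum_eq_zero
      intro j _
      rw [Matrix.smul_mul, Matrix.mul_smul, h0, smul_zero, smul_zero]
    refine ⟨-c, ?_⟩
    have h4 := coe_zpow_of_sq_zero hc h3 (-1)
    rw [_root_.zpow_neg_one] at h4
    rw [h4]
    simp [Finset.sum_neg_distrib]

theorem Core2_nil {n : ℕ} {a : SLZ n} {M : Matrix (Fin n) (Fin n) ℤ}
    (h : (a : Matrix (Fin n) (Fin n) ℤ) = 1 + M) (hM : M * M = 0) :
    IsNilpotent ((a : Matrix (Fin n) (Fin n) ℤ) - 1) := by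
  refine ⟨2, ?_⟩
  rw [h, add_sub_cancel_left, pow_two, hM]

/-- subgroups of rank larger than the dimension of the joint image, or of the joint coimage -/
theorem Core2_P (hG0 : G0_stmt) (hEXJ : EXJ_stmt) (hKOL : KOL_stmt) (hMAL : MAL_stmt)
    (hTRP : TRP_stmt) {n : ℕ}
    (hn : 3 ≤ n) {H : Subgroup (SLZ n)} (hD : ZDense H) {m : ℕ}
    (X : Fin m → Matrix (Fin n) (Fin n) ℤ) (hind : LinearIndependent ℤ X)
    (h0 : ∀ i j, X i * X j = 0) (hX : ∀ i, ∃ h ∈ H, (h : Matrix (Fin n) (Fin n) ℤ) = 1 + X i)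
    (P : Submodule ℚ (Fin n → ℚ)) (hP : Module.finrank ℚ P < m)
    (hPX : (∀ (i : Fin m) (v : Fin n → ℤ), castV (X i *ᵥ v) ∈ P) ∨
      (∀ (i : Fin m) (v : Fin n → ℤ), castV (v ᵥ* X i) ∈ P)) : H.FiniteIndex := by
  have hsq : ∀ c : Fin m → ℤ, (∑ i, c i • X i) * (∑ i, c i • X i) = 0 := fun c => by
    rw [Finset.sum_mul_sum]
    apply Finset.sum_eq_zero
    intro i _
    apply Finset.sum_eq_zero
    intro j _
    rw [Matrix.smul_mul, Matrix.mul_smul, h0, smul_zero, smul_zero]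
  have hle : Core2_grp X h0 ≤ H := by
    rintro a ⟨c, hc⟩
    obtain ⟨h, hh, h1⟩ := Core2_mem h0 hX c Finset.univ
    have : a = h := SL_ext (by rw [hc, h1])
    rw [this]
    exact hh
  have hnil : ∀ a ∈ Core2_grp X h0, IsNilpotent ((a : Matrix (Fin n) (Fin n) ℤ) - 1) := by
    rintro a ⟨c, hc⟩
    exact Core2_nil hc (hsq c)
  have key : ∀ c : Fin m → ℤ, c ≠ 0 → ∃ a ∈ Core2_grp X h0, a ≠ 1 ∧
      (a : Matrix (Fin n) (Fin n) ℤ) = 1 + ∑ i, c i • X i := by
    intro c hc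
    obtain ⟨h, hh, h1⟩ := Core2_mem h0 hX c Finset.univ
    refine ⟨h, ⟨c, h1⟩, ?_, h1⟩
    rintro rfl
    rw [Matrix.SpecialLinearGroup.coe_one] at h1
    have h2 : ∑ i, c i • X i = 0 := by
      have := congrArg (fun M => M - (1 : Matrix (Fin n) (Fin n) ℤ)) h1
      simpa using this.symm
    rw [Fintype.linearIndependent_iff] at hind
    exact hc (funext fun i => hind c h2 i)
  rcases hPX with hPX | hPX
  · refine Core_G hG0 hEXJ hKOL hMAL hn hD hle hnil ?_
    intro v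
    obtain ⟨c, hc, h1⟩ := Core2_dep P hP (fun i => X i *ᵥ v) (fun i => hPX i v)
    obtain ⟨a, ha, ha1, h2⟩ := key c hc
    refine ⟨a, ha, ha1, ?_⟩
    rw [h2, Matrix.add_mulVec, Matrix.one_mulVec, Matrix.sum_mulVec]
    simp only [Matrix.smul_mulVec]
    rw [h1, add_zero]
  · refine Core_GT hG0 hEXJ hKOL hMAL hTRP hn hD hle hnil ?_
    intro v
    obtain ⟨c, hc, h1⟩ := Core2_dep P hP (fun i => v ᵥ* X i) (fun i => hPX i v)
    obtain ⟨a, ha, ha1, h2⟩ := key c hc
    refine ⟨a, ha, ha1, ?_⟩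
    rw [h2, Matrix.vecMul_add, Matrix.vecMul_one, Matrix.vecMul_sum]
    simp only [Matrix.vecMul_smul]
    rw [h1, add_zero]

end Pool.Agent.UG
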