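import Pool.Agent.helper54.UG.Spec

/-!
# Project ug, row FFA.
-/

set_option autoImplicit false

namespace Pool.Agent.UG

open Matrix Pool.Agent.H48SL

theorem FFA_polyMul {n : ℕ} {F G : SLZ n → MQ n} (hF : ∀ i j, IsPolyQ (fun h => F h i j))
    (hG : ∀ i j, IsPolyQ (fun h => G h i j)) (i j : Fin n) :
    IsPolyQ (fun h => (F h * G h) i j) := by
  simp only [Matrix.mul_apply]
  exact IsPolyQ.sum _ _ fun k _ => (hF i k).mul (hG k j)

theorem FFA (hEXC : EXC_stmt) : FFA_stmt := by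
  intro n H X hX
  refine ⟨?_, ?_, ?_, ?_, ?_⟩
  · intro h
    unfold Ff
    rw [← mulVec_mulVec, ← mulVec_mulVec, hX.kill, mulVec_zero]
  · intro h
    exact (hEXC (n + 1) h _ (hX.nil _)).1
  · intro s h hs
    unfold Ff
    have h1 : qg (s * h)⁻¹ *ᵥ e0 n = qg h⁻¹ *ᵥ e0 n := by
      have h2 := fx_inv hs
      unfold fx at h2
      rw [_root_.mul_inv_rev, qg_mul, ← mulVec_mulVec, h2]
    rw [h1, _root_.mul_inv_rev, qg_mul, qg_mul]
    simp only [Matrix.mul_assoc]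
  · intro h hh
    obtain ⟨k, hk, g, hg, h1⟩ := hX.lat (qg h⁻¹ *ᵥ e0 n)
    refine ⟨k, hk, h * g * h⁻¹, H.mul_mem (H.mul_mem hh hg) (H.inv_mem hh), ?_⟩
    have h2 : IsNilpotent ((k : ℚ) • X (qg h⁻¹ *ᵥ e0 n)) := by
      obtain ⟨N, hN⟩ := hX.nil (qg h⁻¹ *ᵥ e0 n)
      exact ⟨N, by rw [smul_pow, hN, smul_zero]⟩
    have h3 := (hEXC (n + 1) h _ h2).2
    rw [qg_mul, qg_mul, h1]
    unfold Ff
    rw [← h3]
    congr 1
    rw [Matrix.mul_smul, Matrix.smul_mul]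
  · unfold Ff
    have hv : ∀ l : Fin (n + 1), IsPolyQ (fun h : SLZ (n + 1) => (qg h⁻¹ *ᵥ e0 n) l) := by
      intro l
      have : (fun h : SLZ (n + 1) => (qg h⁻¹ *ᵥ e0 n) l) = fun h => qg h⁻¹ l 0 := by
        funext h
        exact mulVec_e0 _ _
      rw [this]
      exact IsPolyQ.entry_inv l 0
    have hXp : ∀ i j, IsPolyQ (fun h : SLZ (n + 1) => X (qg h⁻¹ *ᵥ e0 n) i j) := by
      intro i j
      obtain ⟨P, hP⟩ := hX.poly i j
      simp only [hP]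
      exact IsPolyQ.evalP (fun (l : Fin (n + 1)) (h : SLZ (n + 1)) => (qg h⁻¹ *ᵥ e0 n) l) hv P
    intro i j
    exact FFA_polyMul (F := fun h => qg h * X (qg h⁻¹ *ᵥ e0 n)) (G := fun h => qg h⁻¹)
      (FFA_polyMul (F := fun h => qg h) (G := fun h => X (qg h⁻¹ *ᵥ e0 n))
        (fun i j => IsPolyQ.entry i j) hXp) (fun i j => IsPolyQ.entry_inv i j) i j

end Pool.Agent.UG
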