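import Pool.Agent.helper54.UG.Basic

/-!
# Project ug (MP_a2a22c_al): Theorem G. Statements of the rows, with complete proofs in the docstrings.

A row XX is a file `Pool/Agent/<seat>/UG/XX.lean`, namespace `Pool.Agent.UG`, with the theorem given in
the lock note (other rows only as hypotheses, auxiliary lemmas with the prefix `XX_`).
`exp` is `IsNilpotent.exp` (Mathlib/RingTheory/Nilpotent/Exp.lean: `exp_eq_sum`, `exp_add_of_commute`,
`exp_mul_exp_neg_self`, `map_exp`). Transvections, `final_coef`, `NQ_le_of_basis`, `NQ_finiteIndex`,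
`exists_uniform`, `exists_basis`, `ES_univ`, `IsPoly.line`, `primitive_part`, `clear_denom` are in
`Pool/Agent/helper48/SLn/*.lean` (namespace `Pool.Agent.H48SL`); `open Matrix Pool.Agent.H48SL`.

THEOREM G. Let `n ≥ 3`, `H ≤ SL(n, ℤ)` Zariski dense and `A ≤ H` unipotent such that every vector is
fixed by some `1 ≠ a ∈ A`. Then `H` has finite index.
-/

set_option autoImplicit false

namespace Pool.Agent.UG

open Matrix Pool.Agent.H48SL

/-! ### Exponentials -/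

/-- EXD. The exponential and the block. Proof. `X ^ k = 0`. By `kill_iff` `X i 0 = 0`, so
`dn (X ^ i) = (dn X) ^ i` by `dn_mul` and `dn_one` (induction: `(X ^ i) * X`, the left factor has
`(X ^ i) j.succ 0 = 0` for `i ≥ 1`, use `X * X ^ i` instead); apply `dnL` to `exp_eq_sum`. The last
claim: `X ^ i *ᵥ e0 = 0` for `i ≥ 1`. -/
def EXD_stmt : Prop :=
  ∀ (n : ℕ) (X : MQ (n + 1)), IsNilpotent X → X *ᵥ e0 n = 0 →
    IsNilpotent (dn X) ∧ dn (IsNilpotent.exp X) = IsNilpotent.exp (dn X) ∧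
      IsNilpotent.exp X *ᵥ e0 n = e0 n

/-- EXC. The exponential of a conjugate. Proof. `(g X g⁻¹) ^ i = g X ^ i g⁻¹` (`qg_inv_mul`). -/
def EXC_stmt : Prop :=
  ∀ (n : ℕ) (g : SLZ n) (X : MQ n), IsNilpotent X →
    IsNilpotent (qg g * X * qg g⁻¹) ∧
      IsNilpotent.exp (qg g * X * qg g⁻¹) = qg g * IsNilpotent.exp X * qg g⁻¹

/-- EXJ. Elementary facts on `exp X`, `X` nilpotent. Proof. (a) induction, `exp_add_of_commute`. (b)
`exp X - 1 = X * U`, `U = ∑_{i < k} X ^ i / (i + 1)! = 1 + nilpotent` is a unit which commutes with `X`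
(with `X ^ k = 0`). So `exp X *ᵥ w = w` gives `U *ᵥ (X *ᵥ w) = 0`, `X *ᵥ w = 0`; (c) the same for rows;
(d) from (b) for all `w`. (e) `X ^ i *ᵥ w = 0` for `i ≥ 1`. (f) rows. (g) `exp (t • X)` is a polynomial
curve: `exp_eq_sum`. (h) `exp X - 1 = X * U` is nilpotent. -/
def EXJ_stmt : Prop :=
  ∀ (n : ℕ) (X : MQ n), IsNilpotent X →
    (∀ j : ℕ, IsNilpotent.exp X ^ j = IsNilpotent.exp ((j : ℚ) • X)) ∧
    (∀ w : Fin n → ℚ, IsNilpotent.exp X *ᵥ w = w → X *ᵥ w = 0) ∧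
    (∀ w : Fin n → ℚ, w ᵥ* IsNilpotent.exp X = w → w ᵥ* X = 0) ∧
    (IsNilpotent.exp X = 1 → X = 0) ∧
    (∀ w : Fin n → ℚ, X *ᵥ w = 0 → IsNilpotent.exp X *ᵥ w = w) ∧
    (∀ w : Fin n → ℚ, w ᵥ* X = 0 → w ᵥ* IsNilpotent.exp X = w) ∧
    PC (fun t : ℚ => IsNilpotent.exp (t • X)) ∧
    IsNilpotent (IsNilpotent.exp X - 1)

/-! ### Linear algebra -/

/-- COM. A common kernel vector. Proof. Let `N` be minimal with the property of `ANil` (`Nat.find`).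
`N ≥ 1` as the empty product is `1 ≠ 0`. By minimality there is a list `l` of length `≥ N - 1`, hence of
length exactly `N - 1`, elements in `𝔞`, with product `P ≠ 0`. For `X ∈ 𝔞` `X * P = 0`. Take `w` with
`v = P *ᵥ w ≠ 0`. -/
def COM_stmt : Prop :=
  ∀ (n : ℕ), 1 ≤ n → ∀ 𝔞 : Submodule ℚ (MQ n), ANil 𝔞 →
    ∃ v : Fin n → ℚ, v ≠ 0 ∧ ∀ X ∈ 𝔞, X *ᵥ v = 0

/-- N2. In dimension `2` `Star` is impossible. Proof. By COM (hypothesis of the row) there is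
`v ≠ 0` with `X v = 0` for all `X ∈ 𝔞`. Take `u` with `u, v` linearly independent and `X ≠ 0` in `𝔞` with
`X u = 0`: then `X = 0`. -/
def N2_stmt : Prop :=
  ∀ 𝔞 : Submodule ℚ (MQ 2), ANil 𝔞 → ¬ Star 𝔞

/-- CRA. Cramer's rule. Proof. `G i j = ∑ k, (X_i u)_k (X_j u)_k`, a symmetric matrix with entries in
`MvPolynomial (Fin n) ℚ` (`(X_i u)_k` is the linear form `∑ l, C (X i k l) * MvPolynomial.X l`). Its
determinant vanishes at every `u` (`a` is in the kernel of the value of `G` at `u`: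
`Matrix.exists_mulVec_eq_zero_iff`), so `det G = 0` (`MvPolynomial.funext`), and
`Matrix.exists_mulVec_eq_zero_iff` over the domain `MvPolynomial (Fin n) ℚ` gives `c ≠ 0` with
`G c = 0`. At every point `u`, `0 = cᵀ G c = |∑ c_i(u) X_i u|²`, a sum of squares. -/
def CRA_stmt : Prop :=
  ∀ (n r : ℕ) (X : Fin r → MQ n),
    (∀ u : Fin n → ℚ, ∃ a : Fin r → ℚ, a ≠ 0 ∧ (∑ i, a i • X i) *ᵥ u = 0) →
    ∃ c : Fin r → MvPolynomial (Fin n) ℚ, c ≠ 0 ∧
      ∀ u : Fin n → ℚ, (∑ i, MvPolynomial.eval u (c i) • X i) *ᵥ u = 0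

/-- PRM. The orbit of `e0` is Zariski dense. Proof. If `P` vanishes on the orbit, then for integers
`s`, `y_1, ..., y_{n+1}` it vanishes at `(1 + s y_1, y_1, ..., y_{n+1})`: this vector is
`xe 0 1 s` times `tv (0, y_1, ..., y_{n+1}) (1, 0, ..., 0)` applied to `e0`. For `y_1 ≠ 0` the
polynomial `P(x_0, y)` in `x_0` has infinitely many zeros, so it vanishes for all `x_0`. So `x_1 P`
vanishes at all integer points, `x_1 P = 0`, `P = 0` (a polynomial which vanishes at all integer points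
is `0`: `MvPolynomial.funext_set` or induction). -/
def PRM_stmt : Prop :=
  ∀ (n : ℕ) (P : MvPolynomial (Fin (n + 2)) ℚ), P ≠ 0 →
    ∃ h : SLZ (n + 2), MvPolynomial.eval (qg h *ᵥ e0 (n + 1)) P ≠ 0

/-! ### Rank one elements -/

/-- R1. `𝔞` contains a matrix of rank one. Proof. Let `0 ≠ X = e ⊗ φ ∈ 𝔞` (`vecMulVec e φ`). `X² = (φ e) X`
and `X` is nilpotent, so `φ e = 0`. Some `exp (k X) = 1 + k X` is in `H`. With nonzero integers `N₁`, `N₂`
with `N₁ e = e₁`, `N₂ φ = φ₁` integer vectors (`clear_denom`; take them positive) the power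
`z = (1 + k X) ^ (N₁ N₂)` is `1 + k e₁ ⊗ φ₁`. Choose `u` with `φ u ≠ 0` and (`Star`) `0 ≠ Y ∈ 𝔞` with
`Y u = 0`, and `g ∈ H` with `qg g = exp (m Y)`, `m ≥ 1`. Claim: `φ (Y ^ j e) = 0` for all `j`:
`X Y ^ j X = (φ (Y ^ j e)) X`, so `(X Y ^ j) ^ r X = (φ (Y ^ j e)) ^ r X`, which is `0` for large `r`
(product of at least `r + 1` elements of `𝔞`). Hence `φ (g e) = 0` (`exp_eq_sum`). Now
`final_coef` for `z`, `g` (`|0| ≤ 2`); the last alternative: if `g ^ a = z ^ b` with `a ≥ 1`, apply both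
to `u`: `g u = u` (EXJ), `z ^ b u = u + b k' (φ₁ u) e₁` (`z = tv e₁ (k φ₁)`, `tv_zsmul_right`), so `b = 0`,
`g ^ a = 1`, `exp (a m Y) = 1`, `Y = 0` (EXJ). -/
def R1_stmt : Prop :=
  ∀ (n : ℕ), 3 ≤ n → ∀ H : Subgroup (SLZ n), ZDense H → ∀ 𝔞 : Submodule ℚ (MQ n), ANil 𝔞 →
    Lat H 𝔞 → Star 𝔞 → ¬ NoR1 𝔞 → H.FiniteIndex

/-! ### The family -/

/-- FMA. The family of `𝔞`. Proof. Let `X_0, ..., X_{r-1}` be a basis of `𝔞` (`Module.finBasis`), `c` from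
CRA (`Star` gives the hypothesis: write `X = ∑ a_i X_i`), `X u = ∑ c_i(u) X_i ∈ 𝔞`. `poly`, `kill`, `nil`,
`lat` are clear. `ne`: some `c_i ≠ 0`, so `c_i(u) u_0 ≠ 0` for some `u` (`MvPolynomial.funext`), `u ≠ 0`, and
`X u ≠ 0` by linear independence. If all minors `u_i (X u w)_j - u_j (X u w)_i` vanish for this `u` then
`X u *ᵥ w` is a multiple of `u` for every `w`, so `X u = vecMulVec u φ` (`φ j` the factor for `w = e_j`);
this contradicts `NoR1`. -/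
def FMA_stmt : Prop :=
  ∀ (n : ℕ) (H : Subgroup (SLZ (n + 1))) (𝔞 : Submodule ℚ (MQ (n + 1))), ANil 𝔞 → Lat H 𝔞 →
    Star 𝔞 → NoR1 𝔞 → ∃ X : (Fin (n + 1) → ℚ) → MQ (n + 1), Fam H X

/-- FFA. First properties of `Ff X h = h X(h⁻¹ e0) h⁻¹`. Proof. (1) `Ff X h e0 = h X(u) u = 0` with
`u = h⁻¹ e0`. (2) EXC. (3) `s⁻¹ e0 = e0`, so `(s h)⁻¹ e0 = h⁻¹ e0`. (4) `lat` and EXC:
`exp (k • Ff X h) = h exp (k • X u) h⁻¹`. (5) `IsPolyQ.evalP` with `poly`, `IsPolyQ.entry`,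
`IsPolyQ.entry_inv`, sums and products. -/
def FFA_stmt : Prop :=
  ∀ (n : ℕ) (H : Subgroup (SLZ (n + 1))) (X : (Fin (n + 1) → ℚ) → MQ (n + 1)), Fam H X →
    (∀ h, Ff X h *ᵥ e0 n = 0) ∧
    (∀ h, IsNilpotent (Ff X h)) ∧
    (∀ s h : SLZ (n + 1), fx s → Ff X (s * h) = qg s * Ff X h * qg s⁻¹) ∧
    (∀ h ∈ H, ∃ k : ℕ, 1 ≤ k ∧ ∃ g ∈ H, qg g = IsNilpotent.exp ((k : ℚ) • Ff X h)) ∧
    (∀ i j, IsPolyQ (fun h => Ff X h i j))

/-- FFB. The family is not trivial on the quotient. Proof. By `ne` some minor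
`P(u) = u_i (X(u) w)_j - u_j (X(u) w)_i` (`w`, `i`, `j` fixed) is a nonzero polynomial; by PRM
`P(h⁻¹ e0) ≠ 0` for some `h` (apply PRM and take the inverse). With `u = h⁻¹ e0`: `X u *ᵥ w ∉ ℚ u`, so
`Ff X h *ᵥ (h w) = h (X u *ᵥ w) ∉ ℚ (h u) = ℚ e0`. If `dn (Ff X h)` were `0` then, as `Ff X h` kills `e0`
(FFA (1)), the image of `Ff X h` would be in `ℚ e0`. -/
def FFB_stmt : Prop :=
  ∀ (n : ℕ) (H : Subgroup (SLZ (n + 2))) (X : (Fin (n + 2) → ℚ) → MQ (n + 2)), Fam H X →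
    ∃ h : SLZ (n + 2), dn (Ff X h) ≠ 0

/-! ### Zariski density of the block group -/

/-- FIZ. Subgroups of finite index are Zariski dense. Proof. By `zdense_of_Zc` and `ES_univ` it is enough
that `xe i j t ∈ Zc H` for `i ≠ j`, `t ∈ ℤ`. Let `F` be polynomial and `0` on `H`. `t ↦ F (xe i j t)` is a
polynomial in `t` (`IsPoly.line` with `a = b = 1`) which vanishes for `t ∈ k ℤ`, where
`(xe i j 1) ^ k ∈ H`, `k ≥ 1` (`Subgroup.exists_pow_mem_of_index_ne_zero`;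
`xe i j k = (xe i j 1) ^ k` by `tv_zsmul_right`), so everywhere. -/
def FIZ_stmt : Prop :=
  ∀ (n : ℕ), 3 ≤ n → ∀ H : Subgroup (SLZ n), H.FiniteIndex → ZDense H

/-- NSG. Normal subgroups containing a unipotent `x ≠ 1` have finite index. Proof. There is `e` with
`x e ∉ ℚ e`: otherwise `x` is scalar, `x = 1` as it is unipotent. Let `φ ≠ 0`, `φ e = 0`, `τ = tv e φ`,
`y = x τ x⁻¹ τ⁻¹ = tv (x e) (φ x⁻¹) * tv e (-φ) ∈ N` (`tv_conj`); `y ≠ 1` (else `x e ∈ ℚ e`). Let `p ≠ 0` be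
an integer vector with `φ p = 0`, `(φ x⁻¹) p = 0` (`n ≥ 3`): `y p = p`. If there is `ψ` with `ψ p = 0` and
`ψ y⁻¹ ≠ ψ` then `y (tv p ψ) y⁻¹ (tv p ψ)⁻¹ = tv p (ψ y⁻¹ - ψ) ∈ N` is a transvection `≠ 1`. Otherwise all
`ψ` with `ψ p = 0` are fixed by `y`, so the image of `y - 1` is in `ℚ p` and `y = 1 + p ⊗ θ'` (rational
`θ'`), `y ^ m = tv p θ`, `θ ≠ 0`, for some `m ≥ 1`. So `N` contains `tv p θ`, `p, θ ≠ 0`, `θ p = 0`.
For `χ` with `χ p = 0` there is `k ≠ 0` with `tv p (k • χ) ∈ N`: if `χ` is a rational multiple of `θ`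
clear; otherwise there is `q` with `χ q = 0`, `θ q ≠ 0` and `tv p ((θ q) • χ)` is the commutator of
`tv p θ` and `tv q χ` (`tv_commutator`; `N` is normal). By `exists_uniform` there is `m ≠ 0` with
`tv p (m • χ) ∈ N` for all `χ` with `χ p = 0`. `exists_basis` for the Zariski dense group `⊤` gives `h_i`
such that the vectors `h_i p` are a basis `F`; `tv (h_i p) (m • χ) ∈ N` for `χ (h_i p) = 0` (`tv_conj`).
`NQ_le_of_basis` and `NQ_finiteIndex` (with `|m ^ 2 * det ^ 4|`; `NQ ι (-q) = NQ ι q`, the number is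
positive anyway). -/
def NSG_stmt : Prop :=
  ∀ (n : ℕ), 3 ≤ n → ∀ N : Subgroup (SLZ n), N.Normal → ∀ x ∈ N, x ≠ 1 →
    IsNilpotent (qg x - 1) → N.FiniteIndex

/-- EXI. Exponentials of nilpotent rational matrices have integral powers. Proof. Let `N ≥ 1` be an
integer such that `N X` is an integer matrix. For `i ≥ 1` `(k X) ^ i / i! ` is integral for
`k = N * n!`: `k ^ i X ^ i / i! = (n!) ^ i / i! * (N X) ^ i` and `X ^ i = 0` for `i ≥ n`, for `i ≤ n`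
`i! ∣ (n!) ^ i`. So `exp (k X)` is an integer matrix, its determinant is `1`: it is `1 + ` nilpotent
(EXJ (h)), so `det - 1` is nilpotent (or: `det (exp (t k X))` is a polynomial in `t` without zeros...; or
`det` of `1 +` nilpotent is `1`: `Matrix.isUnit_charpolyRev_of_isNilpotent`, or the library). -/
def EXI_stmt : Prop :=
  ∀ (n : ℕ) (X : MQ n), IsNilpotent X → ∃ k : ℕ, 1 ≤ k ∧ ∃ g : SLZ n,
    qg g = IsNilpotent.exp ((k : ℚ) • X)

/-- ZD. The block group is Zariski dense. Proof. Let `F : SLZ n → ℤ` be polynomial, `0` on `L = Hb H`;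
say `F g = eval (entries of g) P`. Let `P'` be `P` with rational coefficients and, for
`h ∈ SLZ (n + 1)` and `t ∈ ℚ`, `Φ(t, h) = eval (entries of exp (t • dn (Ff X h))) P'`. As
`exp (t Z) = ∑_{i < n} t ^ i Z ^ i / i!` for nilpotent `n × n` matrices, `Φ(t, h)` is a polynomial in `t`
for fixed `h` and, for fixed `t`, a function of `h` with `IsPolyQ` (FFA (5)). Let `h ∈ H`. By
FFA (4) `g = exp (k • Ff X h) ∈ H` for some `k ≥ 1`; `fx g` and its block is `exp (k • dn (Ff X h))`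
(FFA (1), EXD) and is in `L`, and so are its powers `exp (j k • dn (Ff X h))` (EXJ (a)): `Φ(j k, h) = 0` for
all `j : ℕ`, so `Φ(t, h) = 0` for all `t`. For fixed `t` `IsPolyQ.dense` gives `Φ(t, h) = 0` for ALL
`h ∈ SLZ (n + 1)`. So: (*) if `s ∈ SLZ n` and `qg s = exp (t • dn (Ff X h))` then `s ∈ Zc L`. Let `M` be the
subgroup generated by these `s` (`t = k ∈ ℕ`, `k ≥ 1`, `h ∈ SLZ (n + 1)` arbitrary). `M ≤ Zc L`. `M` is
normal: for `σ ∈ SLZ n` take `ŝ` from `exists_up`, `fx ŝ`; `Ff X (ŝ h) = ŝ (Ff X h) ŝ⁻¹` (FFA (3)), the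
block is `σ (dn (Ff X h)) σ⁻¹` (`dn_mul`), and EXC. By FFB and EXI `M` contains
`s = exp (k • dn (Ff X h))` with `dn (Ff X h) ≠ 0`, so `s ≠ 1`, unipotent (EXJ (d), (h)). By NSG `M` has
finite index, by FIZ `M` is Zariski dense, and `zdense_of_le_Zc`. -/
def ZD_stmt : Prop :=
  ∀ (n : ℕ), 3 ≤ n → ∀ (H : Subgroup (SLZ (n + 1))) (X : (Fin (n + 1) → ℚ) → MQ (n + 1)),
    ZDense H → Fam H X → ZDense (Hb H)

/-! ### Finite index -/

/-- H1. Vanishing of cohomology. `g i j ∈ G` is a lift of `xe i j k`. Proof. For `h` in the stabiliser write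
`h = [[1, a(h)], [0, s(h)]]`, `a(h)` a row; `a(h₁ h₂) = a(h₂) + a(h₁) s(h₂)`. Elements of `G` with the same
block are equal (apply `hinj` to `g₁ g₂⁻¹`). Let `a_ij = a (g i j)`, `s (g i j) = 1 + k E_ij`. If `E_ij`, `E_pq` commute
(`j ≠ p`, `q ≠ i`) then `g i j`, `g p q` commute (same block), so `a_ij (s_pq - 1) = a_pq (s_ij - 1)`:
`(a_ij)_p e_q = (a_pq)_i e_j`. (A) `p = i`, `q ≠ i, j` (`n ≥ 3`): `(a_ij)_i = 0`. (B) `q = j`, `p ≠ i, j`:
`(a_ij)_p = (a_pj)_i`. (C) for distinct `i, j, l`: `g i j * g j l` and `(g i l) ^ k * g j l * g i j` have the same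
block (`[1 + k E_ij, 1 + k E_jl] = 1 + k² E_il`), so they are equal; `a ((g i l) ^ k) = k a_il` by (A);
comparing: `k (a_ij)_j e_l = k a_il + k² (a_il)_j e_l + k (a_jl)_i e_j`. The `j`-component:
`(a_il)_j = - (a_jl)_i`; with (B) `(a_il)_j = (a_jl)_i`, so `(a_il)_j = 0`. The `l`-component:
`(a_il)_l = (a_ij)_j`. So `a_ij = c_i e_j` for all `j ≠ i`. Put `ψ = (1, b)`, `b_i = - c_i / k`:
`ψ g_ij = (1, a_ij + b (1 + k E_ij)) = (1, b + (c_i + k b_i) e_j) = ψ`. -/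
def H1_stmt : Prop :=
  ∀ (n : ℕ), 3 ≤ n → ∀ G : Subgroup (SLZ (n + 1)), (∀ g ∈ G, fx g) →
    (∀ g ∈ G, dn (qg g) = 1 → g = 1) → ∀ k : ℕ, 1 ≤ k →
    ∀ g : Fin n → Fin n → SLZ (n + 1),
      (∀ i j, i ≠ j → g i j ∈ G ∧ dn (qg (g i j)) = qg (xe i j (k : ℤ))) →
      ∃ ψ : Fin (n + 1) → ℚ, ψ 0 = 1 ∧ ∀ i j, i ≠ j → ψ ᵥ* qg (g i j) = ψ

/-- EFI. The elementary group of level `k` has finite index. Proof. `NQ_le_of_basis` with `F = 1`
(`F.det = 1`), `m = k`: for `φ` with `φ_i = 0`, `tv e_i (k • φ) = ∏_{j ≠ i} xe i j (k φ_j)`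
(`tv_fsum_right`), `xe i j (k c) = (xe i j k) ^ c`. Then `NQ_finiteIndex` with `q = k ^ 2`. -/
def EFI_stmt : Prop :=
  ∀ (n : ℕ), 3 ≤ n → ∀ k : ℕ, 1 ≤ k → ∀ M : Subgroup (SLZ n),
    (∀ i j, i ≠ j → xe i j (k : ℤ) ∈ M) → M.FiniteIndex

/-- CLA. A transvection with centre `e0`. Proof. Suppose there is none. Let `G = H ⊓ St n`. (i) `h ∈ G` with
block `1` is `1`: otherwise its first row is `(1, τ')`, `τ' ≠ 0`, `h = tv e0 (0, τ')`. (ii) `L = Hb H` has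
finite index, so there is `k ≥ 1` with `xe i j k = (xe i j 1) ^ k ∈ L` for all `i ≠ j`
(`Subgroup.exists_pow_mem_of_index_ne_zero` with a product, or `k = index !`). Choose lifts
`g i j ∈ G` and `ψ` from H1. Let `E` be the subgroup generated by the `g i j`; `ψ ᵥ* qg ε = ψ` for `ε ∈ E`,
`E ≤ G`. The image `Hb E` of `E` has finite index (EFI). (iii) Let `h ∈ H`. Some
`g = exp (m • Ff X h) ∈ H` (FFA (4)), `g ∈ G` (FFA (1), EXD); its block `s` has a power `s ^ j ∈ Hb E`,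
`j ≥ 1`, say `s ^ j = block of ε`, `ε ∈ E`; by (i) `g ^ j = ε`. So `ψ` is fixed by
`g ^ j = exp (j m • Ff X h)` and `ψ (Ff X h) = 0` (EXJ (c), `j m ≠ 0`). (iv) By FFA (5) and
`IsPolyQ.dense` `ψ ᵥ* Ff X h = 0` for all `h ∈ SLZ (n + 1)`. For an integer row `τ` with `τ_0 = 0`
let `s = tv e0 τ`, `fx s`; `ψ ᵥ* Ff X (s h) = 0` gives `(ψ s) Ff X h s⁻¹ = 0` (FFA (3)),
`ψ s = ψ + ψ_0 τ = ψ + τ`, so `τ ᵥ* Ff X h = 0`. With `τ = e_{i+1}` the rows `i + 1` of `Ff X h` vanish, so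
`dn (Ff X h) = 0` for all `h`, contradiction to FFB. -/
def CLA_stmt : Prop :=
  ∀ (n : ℕ), 3 ≤ n → ∀ (H : Subgroup (SLZ (n + 1))) (X : (Fin (n + 1) → ℚ) → MQ (n + 1)),
    ZDense H → Fam H X → (Hb H).FiniteIndex →
    ∃ τ : Fin (n + 1) → ℤ, τ ≠ 0 ∧ τ 0 = 0 ∧ tv (Pi.single 0 1) τ ∈ H

/-- TRV. From this transvection to finite index. Proof. Some `τ_{i+1} ≠ 0`; choose `j ≠ i` in `Fin n` and
`k ≥ 1` with `xe i j k ∈ Hb H`, `h ∈ H` a lift, `fx h`. `h⁻¹` has the block `1 - k E_ij`. With `z = tv e0 τ`: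
`h z h⁻¹ = tv e0 (τ h⁻¹)` (`tv_conj`), and `τ h⁻¹ = τ - k τ_{i+1} e_{j+1}` (`τ_0 = 0`). So
`h z h⁻¹ ≠ z`, and `≠ z⁻¹ = tv e0 (-τ)` because `(τ h⁻¹)_{i+1} = τ_{i+1} ≠ - τ_{i+1}`. The coefficient
`τ (h e0) = τ_0 = 0`. `final_coef`. -/
def TRV_stmt : Prop :=
  ∀ (n : ℕ), 2 ≤ n → ∀ (H : Subgroup (SLZ (n + 1))), ZDense H → (Hb H).FiniteIndex →
    ∀ τ : Fin (n + 1) → ℤ, τ ≠ 0 → τ 0 = 0 → tv (Pi.single 0 1) τ ∈ H → H.FiniteIndex

/-! ### The induction -/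

/-- STP. Passage to the quotient by the common kernel vector. Proof. `dn` is multiplicative on
products of elements of `𝔞` (`dn_mul`; `kill_iff`). `Lat`: `exp (k X) = qg h`, then `fx h` and the block is
`exp (k dn X)` (EXD). `Star`: for `ū` let `u = (0, ū)` (`Fin.cons 0 ū`), `0 ≠ X ∈ 𝔞` with `X u = 0`; the
components `i + 1` of `X u` are those of `dn X *ᵥ ū`. If `dn X = 0` then `X = vecMulVec e0 (first row)`,
`0` by `NoR1`. -/
def STP_stmt : Prop :=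
  ∀ (n : ℕ) (H : Subgroup (SLZ (n + 1))) (𝔞 : Submodule ℚ (MQ (n + 1))),
    (∀ X ∈ 𝔞, X *ᵥ e0 n = 0) → ANil 𝔞 → Lat H 𝔞 → Star 𝔞 → NoR1 𝔞 →
    ANil (𝔞.map (dnL n)) ∧ Lat (Hb H) (𝔞.map (dnL n)) ∧ Star (𝔞.map (dnL n))

/-- CNJ. Change of basis. Proof. Scale `v` to a primitive integer vector (`clear_denom`,
`primitive_part`) and take `g ∈ SLZ (n + 1)` with `g e0 = v` (completion of a primitive vector to a
basis; in the library: `Pool/Agent/helper48/SLn/Gen.lean` `euclid` / `column_reduce`, or elsewhere).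
`H' = g⁻¹ H g` (`H.map (MulAut.conj g⁻¹).toMonoidHom`), `𝔞' = g⁻¹ 𝔞 g`. `ZDense H'`: `ip_mul_left`,
`ip_mul_right`. `Lat`: EXC. `NoR1`: `g (e ⊗ φ) g⁻¹ = (g e) ⊗ (φ g⁻¹)`. The index of a conjugate is the same. -/
def CNJ_stmt : Prop :=
  ∀ (n : ℕ), 1 ≤ n → ∀ (H : Subgroup (SLZ (n + 1))) (𝔞 : Submodule ℚ (MQ (n + 1))),
    ZDense H → ANil 𝔞 → Lat H 𝔞 → Star 𝔞 → NoR1 𝔞 → ∀ v : Fin (n + 1) → ℚ, v ≠ 0 →
    (∀ X ∈ 𝔞, X *ᵥ v = 0) →
    ∃ (H' : Subgroup (SLZ (n + 1))) (𝔞' : Submodule ℚ (MQ (n + 1))),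
      (H'.FiniteIndex → H.FiniteIndex) ∧ ZDense H' ∧ ANil 𝔞' ∧ Lat H' 𝔞' ∧ Star 𝔞' ∧ NoR1 𝔞' ∧
      ∀ X ∈ 𝔞', X *ᵥ e0 n = 0

/-- G0. Theorem G for `𝔞`. Proof. Induction on `n ≥ 3`. If not `NoR1 𝔞`, R1. Otherwise COM and CNJ give
a conjugate situation in which all `X ∈ 𝔞` kill `e0`; `n = m + 1`. STP. If `m = 2`, N2 gives a
contradiction. If `m ≥ 3`: FMA gives the family, `Hb H` is Zariski dense by ZD, of finite index by
induction, and CLA, TRV. -/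
def G0_stmt : Prop :=
  ∀ (n : ℕ), 3 ≤ n → ∀ H : Subgroup (SLZ n), ZDense H → ∀ 𝔞 : Submodule ℚ (MQ n), ANil 𝔞 →
    Lat H 𝔞 → Star 𝔞 → H.FiniteIndex

/-- DIM. Dimension at least `n` implies `Star`. Proof. Let `u ≠ 0`. The image of the linear map
`𝔞 → ℚⁿ`, `X ↦ X u`, does not contain `u` (`X u = u` contradicts that `X` is nilpotent), so it is a
proper subspace, and the kernel is not `0`. For `u = 0` take any `X ≠ 0`. -/
def DIM_stmt : Prop :=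
  ∀ (n : ℕ), 1 ≤ n → ∀ 𝔞 : Submodule ℚ (MQ n), ANil 𝔞 → n ≤ Module.finrank ℚ 𝔞 → Star 𝔞

/-! ### Unipotent groups (Malcev) -/

/-- LG. The logarithm. Proof. By induction on `m` there is `P_m` with `X² ∣ P_m - X` and
`exp (P_m(N)) = 1 + N` for all `N : MQ n` with `N ^ m = 0`: `m ≤ 2`: `P = X`. Step (`m ≥ 2`):
`(1 + x) e(- P_m(x)) = 1 + R(x)` with `e` the exponential series truncated at `n + m + 1`, a polynomial;
`R(N) = 0` when `N ^ m = 0`, so `x ^ m ∣ R` (take for `N` the nilpotent Jordan block, or work in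
`AdjoinRoot`; alternatively take the explicit `P = ∑_{1 ≤ i < n} (-1)^(i+1) x ^ i / i` and use
`PowerSeries`). With `c` the coefficient of `x ^ m` of `R`, `P_{m+1} = P_m + c x ^ m`: for
`N ^ (m+1) = 0`, `exp (P_m(N) + c N ^ m) = exp (P_m(N)) (1 + c N ^ m) = 1 + N`. (It is enough to prove
the statement for one universal nilpotent element of order `m`, the image of `x` in `ℚ[x] / (x ^ m)`,
and to apply the homomorphism to `MQ n`, `IsNilpotent.map_exp`.) Second claim: for `Z` nilpotent let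
`N = exp Z - 1` and `Z' = P(N)`: `exp Z' = exp Z`, `Z'` commutes with `Z`, so `exp (Z' - Z) = 1` and `Z' = Z`
(EXJ (d)). -/
def LG_stmt : Prop :=
  ∀ n : ℕ, ∃ P : Polynomial ℚ, Polynomial.X ^ 2 ∣ P - Polynomial.X ∧
    (∀ N : MQ n, IsNilpotent N → IsNilpotent.exp (Polynomial.aeval N P) = 1 + N) ∧
    (∀ Z : MQ n, IsNilpotent Z → Polynomial.aeval (IsNilpotent.exp Z - 1) P = Z)

/-- ISO. Isolators in nilpotent groups. Proof. Replace `G` by the subgroup generated by `x`, `y` (nilpotent)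
and `A` by the intersection; `γ_i = (⊤ : Subgroup G).lowerCentralSeries i`. Compare
`N_POW_core` in Pool/Agent/helper53/PR/N_POW.lean, which proves (1) from the hypothesis for
all elements. (1) for all `i` and `z ∈ γ_i` there are `k > 0`, `h ∈ A`, `r ∈ γ_{i+1}` with
`z ^ k = h * r`; one needs `h ∈ A.lowerCentralSeries i` in the induction. `i = 0`: modulo
`γ_1` the group is abelian and generated by `x`, `y` (closure induction). Step: `γ_{i+1}` is generated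
by `[a, b]`, `a ∈ γ_i`, `b ∈ G`; `a ^ k = h r`, `b ^ l = h' r'` with `h' ∈ A`, `r' ∈ γ_1`; modulo `γ_{i+2}`
`[a, b] ^ (k l) ≡ [a ^ k, b ^ l] ≡ [h, h']` (`[γ_i, γ_1] ≤ γ_{i+2}` : three subgroups lemma,
`Subgroup.commutator_commutator_eq_bot_of_rotate`; alternatively use only `b ∈ {x, y}`: `γ_{i+1}` is
generated modulo `γ_{i+2}` by `[a, x]`, `[a, y]`, `a ∈ γ_i`, since `b ↦ [a, b]` is a homomorphism modulo
`γ_{i+2}`; then `x ^ k`, `y ^ l ∈ A` and no `r'`). (2) For all `i` and `z ∈ G` there are `k > 0`, `h ∈ A` with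
`h⁻¹ z ^ k ∈ γ_i`: induction; `z ^ k = h r`, `r ∈ γ_i`, `r ^ l = h' r'`, `r' ∈ γ_{i+1}`, `r` central modulo
`γ_{i+1}`: `z ^ (k l) ≡ h ^ l r ^ l ≡ h ^ l h'`. For large `i` `γ_i = 1`. -/
def ISO_stmt : Prop :=
  ∀ (G : Type) [Group G], Group.IsNilpotent G → ∀ (A : Subgroup G) (x y : G) (k l : ℕ),
    0 < k → 0 < l → x ^ k ∈ A → y ^ l ∈ A → ∃ m : ℕ, 0 < m ∧ (x * y) ^ m ∈ A

/-- LIN. The logarithms of a radicable unipotent group form a subspace. `S` is the set of logarithms.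
Proof. By downward induction on `i ≥ 1`: (P i) `X, Y ∈ S`, `X, Y ∈ fil i` imply `X + Y ∈ S`. `P N` is
clear (`fil N = ⊥`). Let `P (i + 1)`; then `𝔤 = S ∩ fil (i + 1)` is a subspace. Let `X, Y ∈ S ∩ fil i`, `P` the
polynomial of LG, `M̃(t) = P (exp (tX) exp (tY) - 1)`. `exp (tX) exp (tY) = exp Z` with `Z ∈ S`, so
`M̃(t) = Z ∈ S` (LG, second claim), `exp (M̃(t)) = exp (tX) exp (tY)`. `M̃` is a polynomial
curve (`PC`; EXJ (g)), `M̃(0) = 0`, so `M̃(t) = t M(t)` with a polynomial curve `M`; `M(0) = X + Y`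
(compare the coefficients of `t`: `exp (tX) exp (tY) - 1 = t (X + Y) + t² (...)`, `P = x + x² (...)`).
`M(t) ∈ S` for `t ≠ 0`, and `M(t) - (X + Y) ∈ fil (i + 1)` for all `t`:
`exp (tX) exp (tY) - 1 - t (X + Y) ∈ fil (2 i)`, `P (N) - N ∈ fil (2 i)` for `N ∈ fil i`. For `t, t' ≠ 0`:
`exp (- M(t')) exp (M(t)) = exp D` with `D ∈ S`, and `D ∈ fil (i + 1)` since
`exp (- M(t')) exp (M(t)) - 1 ∈ fil (i + 1)` and `D = P (...)`. So
`D(t, t') = P (exp (- M(t')) exp (M(t)) - 1) ∈ 𝔤` for `t, t' ≠ 0`. For fixed `t = 1` it is a polynomial curve in `t'`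
(`exp (- M(t')) = ∑_{j < n} (...)`), so by `PC.mem_zero` `D(1, 0) ∈ 𝔤`:
`exp (- (X + Y)) exp (M(1)) = exp D₀`, `D₀ ∈ S` (LG, first claim: `exp (P(N)) = 1 + N`), so
`exp (X + Y) = exp (M(1)) exp (- D₀) = exp Z`, `Z ∈ S`, and `X + Y = Z` (LG). All elements of `fil 1` are nilpotent
(`fil 1 ^ i ⊆ fil i`). -/
def LIN_stmt : Prop :=
  ∀ (n : ℕ) (fil : ℕ → Submodule ℚ (MQ n)),
    (∀ i j, ∀ X ∈ fil i, ∀ Y ∈ fil j, X * Y ∈ fil (i + j)) → (∀ i, fil (i + 1) ≤ fil i) →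
    (∃ N, fil N = ⊥) → ∀ S : Set (MQ n), (∀ X ∈ S, X ∈ fil 1) → 0 ∈ S →
    (∀ X ∈ S, ∀ t : ℚ, t • X ∈ S) →
    (∀ X ∈ S, ∀ Y ∈ S, ∃ Z ∈ S, IsNilpotent.exp Z = IsNilpotent.exp X * IsNilpotent.exp Y) →
    ∀ X ∈ S, ∀ Y ∈ S, X + Y ∈ S

/-- UGN. The unipotent group of a filtration. Proof. (a) For `M - 1 ∈ fil 1` `M` is invertible with inverse
`∑_{i < N} (-1) ^ i (M - 1) ^ i`, and `M⁻¹ - 1 ∈ fil 1`. `U` is the subgroup of `(MQ n)ˣ` of all `u` with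
`u - 1 ∈ fil 1`. (b) `[U_i, U_j] ≤ U_{i+j}`, with `U_i = {u : u - 1 ∈ fil i}`:
`u v u⁻¹ v⁻¹ - 1 = ((u - 1)(v - 1) - (v - 1)(u - 1)) (v u)⁻¹`. So `U` is nilpotent
(`lowerCentralSeries i ≤ U_{i+1}`; `Group.isNilpotent` criterion `nilpotent_iff_lowerCentralSeries`). -/
def UGN_stmt : Prop :=
  ∀ (n : ℕ) (fil : ℕ → Submodule ℚ (MQ n)),
    (∀ i j, ∀ X ∈ fil i, ∀ Y ∈ fil j, X * Y ∈ fil (i + j)) → (∀ i, fil (i + 1) ≤ fil i) →
    (∃ N, fil N = ⊥) →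
    ∃ U : Subgroup (MQ n)ˣ, (∀ u : (MQ n)ˣ, u ∈ U ↔ (u : MQ n) - 1 ∈ fil 1) ∧
      Group.IsNilpotent U ∧ ∀ M : MQ n, M - 1 ∈ fil 1 → IsUnit M

/-- KOT. Trace lemma for Kolchin's theorem (`W` finite dimensional over `ℚ`). `R` is a subspace of
endomorphisms closed under multiplication, irreducible on `W`, `b ∈ R` with `tr (r b) = 0` for all
`r ∈ R`. Then `b = 0`. Proof. Suppose `b w ≠ 0`. `{r (b w) : r ∈ R}` is a nonzero... By hypothesis there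
is `r ∈ R` with `r (b w) = w`. `T = r b` has `T w = w`. Fitting: `V = ker T ^ m ⊕ im T ^ m` for
`m = finrank W`, and the projection `π` on `im T ^ m` along `ker T ^ m` is a polynomial in `T` without
constant term: `π = q(T) r b` with `q(T) r ∈ R` (`q(T)` is a linear combination of powers of `T`; `q(T) r`
is a linear combination of `r`, `T r`, ...). `tr π = dim im T ^ m ≥ 1` (`w ∈ im T ^ m`;
`LinearMap.IsProj.trace`), contradiction. (For the polynomial: the minimal polynomial is `x ^ m g`,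
`g(0) ≠ 0`, `a x ^ m + c g = 1`, `π = a(T) T ^ m`. An alternative: all powers of `T` have trace `0`, since
`T ^ i = (T ^ (i-1) r) b`; a matrix over a field of characteristic `0` all of whose powers have trace
`0` is nilpotent, but `T w = w`.) -/
def KOT_stmt : Prop :=
  ∀ (W : Type) [AddCommGroup W] [Module ℚ W] [FiniteDimensional ℚ W]
    (R : Submodule ℚ (Module.End ℚ W)), (∀ a ∈ R, ∀ b ∈ R, a * b ∈ R) →
    (∀ w : W, w ≠ 0 → ∀ w' : W, ∃ r ∈ R, r w = w') →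
    ∀ b ∈ R, (∀ r ∈ R, LinearMap.trace ℚ W (r * b) = 0) → b = 0

/-- KOL. Kolchin's theorem. Proof. For every group `G`, every finite dimensional `V` and
`ρ : G →* Module.End ℚ V` with all `ρ g - 1` nilpotent, products of `≥ finrank V` operators `ρ g - 1` are `0`;
induction on `finrank V`. `V = 0` trivial. (1) There is `0 ≠ v` fixed by all `ρ g`: let `W ≠ 0` be an
invariant subspace of minimal dimension, `R` the span of the `ρ g` restricted to `W`. `R` is closed under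
multiplication; `{r w : r ∈ R}` is an invariant subspace containing `w`, so it is `W` for `w ≠ 0`.
`tr (ρ g) = dim W` on `W` for all `g` (`ρ g - 1` nilpotent, `LinearMap.isNilpotent_trace_of_isNilpotent`),
so `tr (ρ h (ρ g - 1)) = 0` for all `h`, so KOT gives `ρ g = 1` on `W`. (2) `V / ℚ v`: products of
`≥ finrank V - 1` operators map `V` to `ℚ v`, and one more operator (to the left) kills `v`. -/
def KOL_stmt : Prop :=
  ∀ (n : ℕ) (A : Subgroup (SLZ n)), (∀ a ∈ A, IsNilpotent (qg a - 1)) → UNil A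

/-- MAL. Malcev's theorem. Proof. `fil i` = span of all products of `≥ i` matrices `qg a - 1`, `a ∈ A` (for
`i = 0` the empty product `1` is included). It satisfies the hypotheses of LIN and UGN. Let `U` be the group of UGN,
`B ≤ U` the image of `A`. `S = {X ∈ fil 1 : ∃ k ≥ 1, ∃ a ∈ A, qg a = exp (k X)}`. `0 ∈ S`. Scaling: `t = p / q`,
`exp (k q (t X)) = exp (k X) ^ p` (for `p < 0` with `a⁻¹`). Products: `exp X`, `exp Y ∈ U` have powers in `B`,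
so by ISO `(exp X exp Y) ^ m ∈ B`; `Z = P (exp X exp Y - 1) ∈ fil 1` (LG), `exp Z = exp X exp Y`,
`exp (m Z) = (exp X exp Y) ^ m`. By LIN `S` is a subspace `𝔞`; `ANil` since `fil 1 ^ N ⊆ fil N = ⊥`. If
`a ∈ A` then `X = P (qg a - 1) ∈ fil 1`, `exp X = qg a`. -/
def MAL_stmt : Prop :=
  ∀ (n : ℕ) (A : Subgroup (SLZ n)), UNil A → ∃ 𝔞 : Submodule ℚ (MQ n), ANil 𝔞 ∧
    (∀ X ∈ 𝔞, ∃ k : ℕ, 1 ≤ k ∧ ∃ a ∈ A, qg a = IsNilpotent.exp ((k : ℚ) • X)) ∧
    (∀ a ∈ A, ∃ X ∈ 𝔞, qg a = IsNilpotent.exp X)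

/-- IND. An independent sequence of length `m` gives dimension `≥ m`. Proof. Let `A_j` be the subgroup
generated by `a_i`, `i < j` (`UNil A_j` as `A_j ≤ A`), `𝔞_j` from MAL (it is the set of all nilpotent `X`
with `exp (k X) ∈ A_j` for some `k ≥ 1`: EXJ, LG for uniqueness). `𝔞_j ≤ 𝔞_{j+1} ≤ 𝔞`, and
`log a_j ∈ 𝔞_{j+1} \ 𝔞_j`: if `exp (k log a_j) = a_j ^ k ∈ A_j` contradiction. So
`finrank 𝔞_j ≥ j` by induction. (Here `𝔞` is any subspace with the properties of MAL for `A`, which is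
determined by `A`: if `qg a = exp (k X)`, `X` nilpotent and `X' ∈ 𝔞` with `qg a = exp X'` then `k X = X'`.) -/
def IND_stmt : Prop :=
  ∀ (n : ℕ) (A : Subgroup (SLZ n)), UNil A → ∀ 𝔞 : Submodule ℚ (MQ n), ANil 𝔞 →
    (∀ X ∈ 𝔞, ∃ k : ℕ, 1 ≤ k ∧ ∃ a ∈ A, qg a = IsNilpotent.exp ((k : ℚ) • X)) →
    (∀ a ∈ A, ∃ X ∈ 𝔞, qg a = IsNilpotent.exp X) →
    ∀ (m : ℕ) (a : Fin m → SLZ n), (∀ i, a i ∈ A) →
    (∀ i, ∀ k : ℕ, 1 ≤ k → a i ^ k ∉ Subgroup.closure {b | ∃ j, j < i ∧ b = a j}) →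
    m ≤ Module.finrank ℚ 𝔞

/-- TRP. Transposition. Proof. `H' = {h : (h ᵀ) ∈ H}` (an anti-automorphism; compose with the inverse, or
note that the set of transposes is closed under products). `ZDense H'`: `h ↦ hᵀ` is polynomial
(`ip_evalP`-like). The index is the same: `h ↦ (hᵀ)⁻¹` is an automorphism of `SL(n, ℤ)` which maps `H`
to `H'`. -/
def TRP_stmt : Prop :=
  ∀ (n : ℕ) (H : Subgroup (SLZ n)), ZDense H → ∃ H' : Subgroup (SLZ n), ZDense H' ∧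
    (∀ h, h ∈ H' ↔ h.transpose ∈ H) ∧ (H'.FiniteIndex → H.FiniteIndex)

end Pool.Agent.UG
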