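import Pool.Agent.helper54.UG.Spec

/-!
# Project ug (MP_a2a22c_al), part 2: arithmetic subgroups over division algebras and number fields.

THEOREM N. Let `D ≠ ℚ` be a finite dimensional division algebra over `ℚ`, `V = ℚⁿ` a `D`-vector space of
dimension `≥ 2`. A Zariski dense subgroup of `SL(n, ℤ)` which contains (multiples of) all
`D`-linear `1 + X`, `X² = 0`, has finite index. The same for the transvections of the symplectic group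
of a nondegenerate alternating form over a number field `K ≠ ℚ` (for `dim_K V = 2` this is `SL_2(O_K)`).

Rules as for Spec.lean; import Pool.Agent.helper54.UG.Spec2.
-/

set_option autoImplicit false

namespace Pool.Agent.UG

open Matrix Pool.Agent.H48SL

/-- STQ. Proof. As in STP: `dn` is multiplicative on products of elements of `𝔟` (`dn_mul`, `kill_iff`),
`exp (k X) = qg h` implies `fx h` and the block is `exp (k dn X)` (EXD). -/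
def STQ_stmt : Prop :=
  ∀ (n : ℕ) (H : Subgroup (SLZ (n + 1))) (𝔟 : Submodule ℚ (MQ (n + 1))),
    (∀ X ∈ 𝔟, X *ᵥ e0 n = 0) → ANil 𝔟 → Lat H 𝔟 →
    ANil (𝔟.map (dnL n)) ∧ Lat (Hb H) (𝔟.map (dnL n))

/-- `𝔟` consists of elements which kill `e0`, and every vector is mapped into `ℚ e0` by an element with
nonzero block -/
structure Good {n : ℕ} (H : Subgroup (SLZ (n + 1))) (𝔟 : Submodule ℚ (MQ (n + 1))) : Prop where
  kill : ∀ X ∈ 𝔟, X *ᵥ e0 n = 0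
  anil : ANil 𝔟
  lat : Lat H 𝔟
  star : ∀ u : Fin (n + 1) → ℚ, ∃ Y ∈ 𝔟, dn Y ≠ 0 ∧ ∀ i : Fin n, (Y *ᵥ u) i.succ = 0

/-- KB. The general criterion. Proof. `Hb H` is Zariski dense (ZD). By STQ and `star`
(for `ū` take `u = Fin.cons 0 ū`: `(dn Y *ᵥ ū) i = (Y *ᵥ u) i.succ`) G0 applies to `Hb H` and the image of
`𝔟` under `dnL`, so `Hb H` has finite index. CLA, TRV. -/
def KB_stmt : Prop :=
  ∀ (n : ℕ), 3 ≤ n → ∀ (H : Subgroup (SLZ (n + 1))) (X : (Fin (n + 1) → ℚ) → MQ (n + 1))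
    (𝔟 : Submodule ℚ (MQ (n + 1))), ZDense H → Fam H X → Good H 𝔟 → H.FiniteIndex

/-- KAD. Norm and adjugate in a division algebra. Proof. `b` a basis of `D`, `L x` the matrix of
left multiplication by `x` (`Algebra.leftMulMatrix b` or `LinearMap.toMatrix b b (LinearMap.mulLeft ℚ x)`),
`nm x = det (L x)`, `sh x` the element with coordinates `adjugate (L x) *ᵥ (coordinates of 1)`.
`L x *ᵥ (adjugate (L x) *ᵥ v) = det (L x) • v`. `L 1 = 1`. The entries of `L (ℓ u)` are linear forms in `u`;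
take the matrix with these entries in `MvPolynomial (Fin m) ℚ` and its determinant and adjugate
(`RingHom.map_det`, `RingHom.map_adjugate`). -/
def KAD_stmt : Prop :=
  ∀ (D : Type) [DivisionRing D] [Algebra ℚ D] [FiniteDimensional ℚ D],
    ∃ (sh : D → D) (nm : D → ℚ), (∀ x, x * sh x = algebraMap ℚ D (nm x)) ∧ sh 1 = 1 ∧ nm 1 = 1 ∧
      ∀ (m : ℕ) (ℓ : (Fin m → ℚ) →ₗ[ℚ] D),
        (∃ P : MvPolynomial (Fin m) ℚ, ∀ u, nm (ℓ u) = MvPolynomial.eval u P) ∧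
        ∀ μ : D →ₗ[ℚ] ℚ, ∃ P : MvPolynomial (Fin m) ℚ, ∀ u, μ (sh (ℓ u)) = MvPolynomial.eval u P

/-- every `D`-linear `X` with `X² = 0` has a multiple `k X`, `k ≥ 1`, with `1 + k X ∈ H` -/
def DHyp {n : ℕ} {D : Type} [DivisionRing D] [Algebra ℚ D] (f : D →ₐ[ℚ] MQ n)
    (H : Subgroup (SLZ n)) : Prop :=
  ∀ X : MQ n, (∀ c : D, f c * X = X * f c) → X * X = 0 →
    ∃ k : ℕ, 1 ≤ k ∧ ∃ h ∈ H, qg h = 1 + (k : ℚ) • X

/-- KLF. Linear functionals. `V = Fin n → ℚ` is a left `D`-vector space by `c v = f c *ᵥ v`, of dimension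
`≥ 2` (`finrank`). Proof. Let `V'` be a type synonym or use `Module.compHom V f.toRingHom` with the
action of matrices on vectors; the `D`-dimension times `finrank ℚ D` is `n`. (1) From a basis with at least
two elements take two coordinate functions. (2) Extend `v` to a basis (`v ≠ 0`), and take the coordinate
function of another basis vector. -/
def KLF_stmt : Prop :=
  ∀ (n : ℕ) (D : Type) [DivisionRing D] [Algebra ℚ D] [FiniteDimensional ℚ D] (f : D →ₐ[ℚ] MQ n),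
    Module.finrank ℚ D < n →
    2 * Module.finrank ℚ D ≤ n ∧
    (∃ (ξ₁ ξ₂ : (Fin n → ℚ) →ₗ[ℚ] D) (e₁ e₂ : Fin n → ℚ),
      (∀ c v, ξ₁ (f c *ᵥ v) = c * ξ₁ v) ∧ (∀ c v, ξ₂ (f c *ᵥ v) = c * ξ₂ v) ∧
      ξ₁ e₁ = 1 ∧ ξ₁ e₂ = 0 ∧ ξ₂ e₁ = 0 ∧ ξ₂ e₂ = 1) ∧
    (∀ v : Fin n → ℚ, v ≠ 0 → ∃ (ξ : (Fin n → ℚ) →ₗ[ℚ] D) (e : Fin n → ℚ),
      (∀ c v, ξ (f c *ᵥ v) = c * ξ v) ∧ ξ v = 0 ∧ ξ e = 1)

/-- KFD. The family for `D`. Proof. `ξ₁, ξ₂, e₁, e₂` from KLF, `sh`, `nm` from KAD.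
`c₁(u) = nm (ξ₂ u) • sh (ξ₁ u)`, `c₂(u) = - nm (ξ₁ u) • sh (ξ₂ u)`, and `X(u)` is the matrix of
`s ↦ f (ξ₁(s) c₁(u) + ξ₂(s) c₂(u)) *ᵥ u`. `kill`: `ξ₁(u) c₁(u) + ξ₂(u) c₂(u) = 0` (KAD). `X(u)` commutes with
`f c`, and `X(u) (X(u) s) = X(u) (f w *ᵥ u) = f w *ᵥ (X(u) u) = 0`: `nil`; `lat` by `DHyp`
(`exp (k X) = 1 + k X`, `exp_eq_sum` with exponent `2`). `poly`: `X(u) i j = ∑ l, f (ξ₁(e_j) c₁(u) + ...) i l * u l`, and
`c ↦ f (ξ₁(e_j) * c) i l` is a linear functional `μ` (KAD). `ne`: `u = e₁ + e₂`: `c₁ = 1`, `c₂ = -1`. Let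
`a ∈ D` not in `ℚ` (`2 ≤ finrank`), `w = f a *ᵥ e₁`: `X(u) w = f a *ᵥ u`, not a multiple of `u`:
`f (a - q) *ᵥ u = 0` would give `u = 0` (`a - q` invertible), but `ξ₁ u = 1`. As `u ≠ 0` some minor is
nonzero. -/
def KFD_stmt : Prop :=
  ∀ (n : ℕ) (D : Type) [DivisionRing D] [Algebra ℚ D] [FiniteDimensional ℚ D]
    (f : D →ₐ[ℚ] MQ (n + 1)) (H : Subgroup (SLZ (n + 1))), 2 ≤ Module.finrank ℚ D →
    Module.finrank ℚ D < n + 1 → DHyp f H → ∃ X : (Fin (n + 1) → ℚ) → MQ (n + 1), Fam H X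

/-- KSD. The subspace `𝔟` for `D`. Proof. `v = e0`, `𝔟` the space of all `X` which commute with all
`f c`, with `X v = 0` and `X s ∈ f(D) v` for all `s`. `X Y = 0` for `X, Y ∈ 𝔟`
(`X (f c *ᵥ v) = f c *ᵥ (X v) = 0`): `anil` with `N = 2`; `lat` by `DHyp` and `exp X = 1 + X`. `star`: `ξ`, `e` from KLF
for `v`. For `c ∈ D` let `X_c` be the matrix of `s ↦ f (ξ(s) c) *ᵥ v`, an element of `𝔟`. Given `u` take
`c = 1` if `ξ u = 0` (`X_c u = 0`), otherwise `c = (ξ u)⁻¹` (`X_c u = v = e0`). `dn X_c ≠ 0`: otherwise the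
image of `X_c` is in `ℚ e0` (as `X_c` kills `e0`); but for `a ∈ D`, `a ∉ ℚ`, and `s = f (a c⁻¹) *ᵥ e`,
`X_c s = f a *ᵥ v ∉ ℚ v`. -/
def KSD_stmt : Prop :=
  ∀ (n : ℕ) (D : Type) [DivisionRing D] [Algebra ℚ D] [FiniteDimensional ℚ D]
    (f : D →ₐ[ℚ] MQ (n + 1)) (H : Subgroup (SLZ (n + 1))), 2 ≤ Module.finrank ℚ D →
    Module.finrank ℚ D < n + 1 → DHyp f H → ∃ 𝔟 : Submodule ℚ (MQ (n + 1)), Good H 𝔟

/-- KD. Theorem N for `D`. Proof. `n ≥ 2 * finrank ≥ 4` (KLF), `n = m + 1`; KFD, KSD, KB. -/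
def KD_stmt : Prop :=
  ∀ (n : ℕ) (D : Type) [DivisionRing D] [Algebra ℚ D] [FiniteDimensional ℚ D]
    (f : D →ₐ[ℚ] MQ n) (H : Subgroup (SLZ n)), 2 ≤ Module.finrank ℚ D →
    Module.finrank ℚ D < n → DHyp f H → ZDense H → H.FiniteIndex

/-- the symplectic data over a number field `K`: `ω` is `K`-linear in the second variable, alternating and
nondegenerate, and for all `u`, `c` some multiple of the transvection `s ↦ s + c ω(u, s) u` is in `H` -/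
structure SHyp {n : ℕ} {K : Type} [Field K] [Algebra ℚ K] (f : K →ₐ[ℚ] MQ n)
    (ω : (Fin n → ℚ) →ₗ[ℚ] (Fin n → ℚ) →ₗ[ℚ] K) (H : Subgroup (SLZ n)) : Prop where
  lin : ∀ u s c, ω u (f c *ᵥ s) = c * ω u s
  alt : ∀ u, ω u u = 0
  nondeg : ∀ u, u ≠ 0 → ∃ s, ω u s ≠ 0
  mem : ∀ (u : Fin n → ℚ) (c : K), ∃ k : ℕ, 1 ≤ k ∧ ∃ h ∈ H,
    ∀ s, qg h *ᵥ s = s + (k : ℚ) • (f (c * ω u s) *ᵥ u)

/-- KFS. The family for the symplectic group. Proof. `X(u)` is the matrix of `s ↦ f (ω u s) *ᵥ u`.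
`kill`: `alt`. `X(u) (X(u) s) = f (ω u (f (ω u s) *ᵥ u)) *ᵥ u = f (ω u s * ω u u) *ᵥ u = 0`. `lat`: `mem` with `c = 1`,
`exp (k X) = 1 + k X`. `poly`: `X(u) i j = ∑ l, f (ω u e_j) i l * u l`, a quadratic form in `u`. `ne`: take
`u ≠ 0`, `s` with `ω u s ≠ 0`, `a ∈ K`, `a ∉ ℚ`, `w = f (a * (ω u s)⁻¹) *ᵥ s`: `ω u w = a`,
`X(u) w = f a *ᵥ u ∉ ℚ u`. -/
def KFS_stmt : Prop :=
  ∀ (n : ℕ) (K : Type) [Field K] [Algebra ℚ K] [FiniteDimensional ℚ K]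
    (f : K →ₐ[ℚ] MQ (n + 1)) (ω : (Fin (n + 1) → ℚ) →ₗ[ℚ] (Fin (n + 1) → ℚ) →ₗ[ℚ] K)
    (H : Subgroup (SLZ (n + 1))), 2 ≤ Module.finrank ℚ K → SHyp f ω H →
    ∃ X : (Fin (n + 1) → ℚ) → MQ (n + 1), Fam H X

/-- KSS. The subspace `𝔟` for the symplectic group. Proof. `v = e0`, `X_c` the matrix of
`s ↦ f (c * ω v s) *ᵥ v`, `𝔟` the set of all `X_c`, `c ∈ K` (the range of a linear map `K → MQ`).
`X_c v = 0` (`alt`), `X_c X_{c'} = 0`. `lat`: `mem`. `star`: given `u` take `c = 1` if `ω v u = 0`, otherwise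
`c = (ω v u)⁻¹` (`X_c u = v = e0`). `dn X_c ≠ 0` for `c ≠ 0`: as in KFS there is `w` with
`X_c w = f a *ᵥ v ∉ ℚ v`, `a ∉ ℚ`, whereas `dn X_c = 0` and `X_c e0 = 0` would put the image into `ℚ e0`. -/
def KSS_stmt : Prop :=
  ∀ (n : ℕ) (K : Type) [Field K] [Algebra ℚ K] [FiniteDimensional ℚ K]
    (f : K →ₐ[ℚ] MQ (n + 1)) (ω : (Fin (n + 1) → ℚ) →ₗ[ℚ] (Fin (n + 1) → ℚ) →ₗ[ℚ] K)
    (H : Subgroup (SLZ (n + 1))), 2 ≤ Module.finrank ℚ K → SHyp f ω H →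
    ∃ 𝔟 : Submodule ℚ (MQ (n + 1)), Good H 𝔟

/-- KS. Theorem N for the symplectic group. Proof. `n ≥ 1`, so take `v ≠ 0` and `s` with `ω v s ≠ 0`. The
map `K × K → V`, `(a, b) ↦ f a *ᵥ v + f b *ᵥ s` is injective (apply `ω v`: `b * ω v s = 0`; then `f a *ᵥ v = 0`,
`a = 0`), so `n ≥ 2 * finrank ≥ 4`, `n = m + 1`, `m ≥ 3`; KFS, KSS, KB. -/
def KS_stmt : Prop :=
  ∀ (n : ℕ) (K : Type) [Field K] [Algebra ℚ K] [FiniteDimensional ℚ K]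
    (f : K →ₐ[ℚ] MQ n) (ω : (Fin n → ℚ) →ₗ[ℚ] (Fin n → ℚ) →ₗ[ℚ] K)
    (H : Subgroup (SLZ n)), 1 ≤ n → 2 ≤ Module.finrank ℚ K → SHyp f ω H → ZDense H → H.FiniteIndex

end Pool.Agent.UG
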